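import Pool.Agent.Lib.MP_d59d86_an.Defs

/-! The integral part `v` in the decomposition `u = v + p` of a solution. -/

namespace Pool.Agent.Lib.MP_d59d86_an

open MeasureTheory

/-- `v(x) = (2 / Λ₁) ∫ log ((1 + |y|) / |x - y|) e^{n u(y)} |y|^{n α} dy`. -/
noncomputable def vpart (n : ℕ) (α : ℝ) (u : E n → ℝ) (x : E n) : ℝ :=
  2 / lambdaOne n * ∫ y, Real.log ((1 + ‖y‖) / ‖x - y‖) * rhs n α u y

end Pool.Agent.Lib.MP_d59d86_an
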