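import Pool.Agent.Lib.MP_d59d86_an.Defs

/-! Finite groups of orthogonal maps. -/

namespace Pool.Agent.Lib.MP_d59d86_an

/-- `G` is a finite subgroup of `O(n)`, given as a set of self-maps of `ℝ^n`. -/
structure IsFinOrth {n : ℕ} (G : Set (E n → E n)) : Prop where
  finite : G.Finite
  linear : ∀ g ∈ G, IsLinearMap ℝ g
  norm : ∀ g ∈ G, ∀ x, ‖g x‖ = ‖x‖
  one : id ∈ G
  mul : ∀ g ∈ G, ∀ h ∈ G, g ∘ h ∈ G
  inv : ∀ g ∈ G, ∃ h ∈ G, g ∘ h = id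

end Pool.Agent.Lib.MP_d59d86_an
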