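import Pool.Agent.Lib.MP_d59d86_an.Dg.Ker

/-! Existence above the threshold. -/

namespace Pool.Agent.Lib.MP_d59d86_an

open MeasureTheory Filter Topology Set

variable {n k : ℕ} {e : E n → ℝ} {a c : ℝ}

theorem Wk.dn (h : Wk k e) (hn : 1 ≤ n) (hk : k ≤ n) (ha : 0 ≤ a) (han : a < n) (hc : 0 < c)
    (hac : (n : ℝ) - k < a + c) {ρ : E n → ℝ} {M : ℝ} (hm : Measurable ρ) (h0 : ∀ y, 0 ≤ ρ y)
    (hM : 0 ≤ M) (hρ : ∀ y, ρ y ≤ M * wt e a c y) : Dn a ρ := by
  obtain ⟨C, hC, he⟩ := h.bdd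
  set ε := min c (a + c - (n - k)) / 2 with hε'
  have h1 : 0 < min c (a + c - (n - k)) := lt_min hc (by linarith)
  have hε : 0 < ε := by positivity
  have h2 := min_le_left c (a + c - (n - k))
  have h3 := min_le_right c (a + c - (n - k))
  have hb : ∀ y, ρ y ≤ M * C * (‖y‖ ^ (-a) * (1 + ‖y‖) ^ (-c)) := fun y => by
    refine (hρ y).trans ?_
    have := he y
    rw [wt, mul_assoc, mul_assoc]
    gcongr
  refine ⟨hm, h0, ((h.wt_int hn hk ha han hc.le hac).const_mul M).mono' hm.aestronglyMeasurable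
    (Eventually.of_forall fun y => by rw [Real.norm_of_nonneg (h0 y)]; exact hρ y),
    ((h.wt_int hn hk ha han (c := c - ε) (by linarith) (by linarith)).const_mul (M / ε)).mono'
      (Measurable.aestronglyMeasurable (Measurable.mul (by fun_prop) hm))
      (Eventually.of_forall fun y => ?_), ⟨M * C, by positivity, fun y => (hb y).trans ?_⟩,
    ⟨c, M * C, hc, by positivity, fun y hy => (hb y).trans ?_⟩⟩
  · rw [Real.norm_of_nonneg (mul_nonneg (log1_nonneg y) (h0 y))]
    refine (mul_le_mul (Real.log_le_rpow_div (by positivity) hε) (hρ y) (h0 y)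
      (by positivity)).trans (le_of_eq ?_)
    rw [wt, wt, show -(c - ε) = -c + ε by ring, Real.rpow_add (by positivity)]
    ring
  · have a1 := rpow_le_kb ha y
    have a2 := one_add_le_one hc.le y
    have a3 := kb_nonneg a y
    rw [← mul_one (1 + kb a y)]
    gcongr
  · have a1 := Real.rpow_le_one_of_one_le_of_nonpos hy (show -a ≤ 0 by linarith)
    have a2 : (1 + ‖y‖) ^ (-c) ≤ ‖y‖ ^ (-c) :=
      Real.rpow_le_rpow_of_nonpos (by linarith) (by linarith) (by linarith)
    rw [← one_mul (‖y‖ ^ (-c))]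
    gcongr

theorem Wk.exists_rho (h : Wk k e) (hn : 1 ≤ n) (hk : k ≤ n) (ha : 0 ≤ a) {β : ℝ} (hβ : 0 < β)
    (hab : a + β < n) (hlow : (n : ℝ) - k < a + β) :
    ∃ (ρ : E n → ℝ) (Z : ℝ), Dn a ρ ∧ ∫ y, ρ y = 1 ∧ 0 < Z ∧
      ∀ x, ρ x = e x * ‖x‖ ^ (-a) * Real.exp (-(2 * β) * lp ρ x) / Z := by
  obtain ⟨b, hb1, hb2⟩ := exists_between (lt_min (lt_min (show β < n - a by linarith)
    (show β < 4 / 3 * β by linarith)) (show β < a + 2 * β - (n - k) by linarith))
  rw [lt_min_iff, lt_min_iff] at hb2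
  obtain ⟨⟨h1, h2⟩, h3⟩ := hb2
  obtain ⟨A, hA⟩ := h.ker hn hk ha (c := 2 * β - b) (b := b) (by linarith) (by linarith)
    (by linarith) (by linarith) (by linarith)
  rw [sub_add_cancel] at hA
  have iw := h.wt_int hn hk ha (c := 2 * β) (by linarith) (by linarith) (by linarith)
  obtain ⟨g, V, M, Z, gm, g0, gM, h4, hV, hZ, hfix⟩ := exists_g hn (h.wt_meas a (2 * β))
    (h.wt_nonneg _ _) (fun y hy => by
      have := h.pos y
      have := norm_pos_iff.2 hy
      unfold wt; positivity) iw (L := LD k) (l := fun _ => 0) LD_meas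
    (fun x y => by rw [LD, LD, norm_sub_refl, norm_sub_rev x, norm_sub_rev _ y]; ring)
    measurable_const (fun _ => le_rfl) (fun x y => by
      have a1 := log_sub_le x y
      have a2 := log_sub_le x (dl k (-2) y)
      rw [norm_refl] at a2
      rw [LD]; linarith) hA (by simpa using iw) hβ.le hb1
  set ρ := fun y => wt e a (2 * β) y * g y with hρ'
  have hm : Measurable ρ := (h.wt_meas _ _).mul gm
  have hρ : Dn a ρ := h.dn hn hk ha (c := 2 * β) (by linarith) (by linarith) (by linarith) hm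
    (fun y => mul_nonneg (h.wt_nonneg _ _ _) (g0 y)) ((g0 0).trans (gM 0)) fun y => by
      rw [mul_comm M]; exact mul_le_mul_of_nonneg_left (gM y) (h.wt_nonneg _ _ _)
  have hρi : ∀ x, ρ (dl k (-2) x) = ρ x := fun x => by
    have e1 : ∀ y, LD k (dl k (-2) x) y = LD k x y := fun y => by
      rw [LD, LD, ← map_sub, norm_refl, norm_refl, ← norm_sub_refl, add_comm]
    simp only [hρ', hfix (dl k (-2) x), hfix x, hV, e1, h.wt_refl]
  obtain ⟨B, hB⟩ := hρ.log_bound hn ha (by linarith)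
  have hVU : ∀ x, V x = lp ρ x - Real.log (1 + ‖x‖) - ∫ y, Real.log (1 + ‖y‖) * ρ y := fun x => by
    have m1 : Measurable fun y => Real.log ‖x - y‖ * ρ y := Measurable.mul (by fun_prop) hm
    have i1 := dl_int hk (c := -2) (by norm_num) m1 (hB x).1
    have e1 := dl_integral hk (c := -2) (by norm_num) m1
    simp only [hρi] at i1 e1
    have i2 : Integrable fun y => (Real.log ‖x - y‖ * ρ y +
      Real.log ‖x - dl k (-2) y‖ * ρ y) / 2 := ((hB x).1.add i1).div_const 2
    have i3 := hρ.int.const_mul (Real.log (1 + ‖x‖))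
    have i4 : Integrable fun y => (Real.log ‖x - y‖ * ρ y +
      Real.log ‖x - dl k (-2) y‖ * ρ y) / 2 - Real.log (1 + ‖x‖) * ρ y := i2.sub i3
    have e2 : V x = ∫ y, ((Real.log ‖x - y‖ * ρ y + Real.log ‖x - dl k (-2) y‖ * ρ y) / 2 -
        Real.log (1 + ‖x‖) * ρ y - Real.log (1 + ‖y‖) * ρ y) := by
      rw [hV]
      exact integral_congr_ae (Eventually.of_forall fun y => by simp only [LD, hρ']; ring)
    rw [e2, integral_sub i4 hρ.intl, integral_sub i2 i3, integral_div, integral_add (hB x).1 i1,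
      e1, integral_const_mul, h4, lp]
    norm_num
  refine ⟨ρ, Z * Real.exp (-(2 * β) * ∫ y, Real.log (1 + ‖y‖) * ρ y), hρ, h4, by positivity,
    fun x => ?_⟩
  change wt e a (2 * β) x * g x = _
  rw [hfix, hVU, wt, Real.rpow_def_of_pos (x := 1 + ‖x‖) (by positivity), mul_sub, mul_sub,
    Real.exp_sub, Real.exp_sub, mul_comm (Real.log _)]
  field_simp

end Pool.Agent.Lib.MP_d59d86_an
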