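import Pool.Agent.Lib.MP_d59d86_an.Main

/-! The projection on the last `n - k` coordinates, dilations along it, and slab weights. -/

namespace Pool.Agent.Lib.MP_d59d86_an

open MeasureTheory Filter Topology Set
open scoped RealInnerProductSpace

variable {n : ℕ}

/-- Projection on the coordinates of index at least `k`. -/
noncomputable def pj (k : ℕ) : E n →ₗ[ℝ] E n where
  toFun x := WithLp.toLp 2 fun i => if i.val < k then 0 else x i
  map_add' x y := by ext i; by_cases h : i.val < k <;> simp [h]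
  map_smul' c x := by ext i; by_cases h : i.val < k <;> simp [h]

variable {k : ℕ}

theorem pj_apply (x : E n) (i : Fin n) : pj k x i = if i.val < k then 0 else x i := rfl

theorem pj_cont : Continuous (pj k : E n → E n) := (pj k).continuous_of_finiteDimensional

theorem pj_pj (x : E n) : pj k (pj k x) = pj k x := by
  ext i; by_cases h : i.val < k <;> simp [pj_apply, h]

theorem inner_pj (x : E n) : ⟪x, pj k x⟫ = ‖pj k x‖ ^ 2 := by
  rw [← real_inner_self_eq_norm_sq]
  simp only [PiLp.inner_apply]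
  refine Finset.sum_congr rfl fun i _ => ?_
  by_cases h : i.val < k <;> simp [pj_apply, h]

theorem norm_add_pj (c : ℝ) (x : E n) :
    ‖x + c • pj k x‖ ^ 2 = ‖x‖ ^ 2 + (2 * c + c ^ 2) * ‖pj k x‖ ^ 2 := by
  rw [norm_add_sq_real, real_inner_smul_right, inner_pj, norm_smul, mul_pow, Real.norm_eq_abs,
    sq_abs]
  ring

theorem norm_sub_pj (x : E n) : ‖x - pj k x‖ ^ 2 = ‖x‖ ^ 2 - ‖pj k x‖ ^ 2 := by
  have := norm_add_pj (k := k) (-1) x
  rw [neg_one_smul, ← sub_eq_add_neg] at this
  linarith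

theorem norm_pj_le (x : E n) : ‖pj k x‖ ≤ ‖x‖ := by
  have := norm_sub_pj (k := k) x
  exact abs_le_of_sq_le_sq' (by nlinarith [sq_nonneg ‖x - pj k x‖]) (norm_nonneg _) |>.2

theorem norm_sub_pj_le (x : E n) : ‖x - pj k x‖ ≤ ‖x‖ := by
  have := norm_sub_pj (k := k) x
  exact abs_le_of_sq_le_sq' (by nlinarith [sq_nonneg ‖pj k x‖]) (norm_nonneg _) |>.2

/-- The dilation by `1 + c` of the last `n - k` coordinates. -/
noncomputable def dl (k : ℕ) (c : ℝ) : E n →ₗ[ℝ] E n := LinearMap.id + c • pj k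

theorem dl_apply (c : ℝ) (x : E n) : dl k c x = x + c • pj k x := rfl

theorem dl_cont (c : ℝ) : Continuous (dl k c : E n → E n) :=
  (dl k c).continuous_of_finiteDimensional

theorem card_ge (hk : k ≤ n) : (Finset.univ.filter fun i : Fin n => ¬ i.val < k).card = n - k := by
  have h1 := Finset.card_filter_add_card_filter_not (s := (Finset.univ : Finset (Fin n)))
    (fun i => i.val < k)
  rw [Fin.card_filter_val_lt, Finset.card_univ, Fintype.card_fin, min_eq_right hk] at h1
  omega

theorem dl_det (hk : k ≤ n) (c : ℝ) : LinearMap.det (dl k c : E n →ₗ[ℝ] E n) = (1 + c) ^ (n - k) := by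
  have h : LinearMap.toMatrix (EuclideanSpace.basisFun (Fin n) ℝ).toBasis
      (EuclideanSpace.basisFun (Fin n) ℝ).toBasis (dl k c) =
      Matrix.diagonal fun i : Fin n => if i.val < k then 1 else 1 + c := by
    ext i j
    rw [LinearMap.toMatrix_apply, Matrix.diagonal_apply]
    by_cases h' : i = j
    · subst h'
      by_cases h : i.val < k <;> simp [dl_apply, pj_apply, h]
    · by_cases h : i.val < k <;> simp [dl_apply, pj_apply, h, h']
  rw [← LinearMap.det_toMatrix (EuclideanSpace.basisFun (Fin n) ℝ).toBasis, h, Matrix.det_diagonal,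
    Finset.prod_ite, Finset.prod_const_one, one_mul, Finset.prod_const, card_ge hk]

theorem dl_map (hk : k ≤ n) {c : ℝ} (hc : 1 + c ≠ 0) :
    Measure.map (dl k c : E n → E n) volume =
      ENNReal.ofReal (|1 + c| ^ (n - k))⁻¹ • (volume : Measure (E n)) := by
  rw [Measure.map_linearMap_addHaar_eq_smul_addHaar volume
    (by rw [dl_det hk]; exact pow_ne_zero _ hc), dl_det hk, abs_inv, abs_pow]

theorem dl_integral (hk : k ≤ n) {c : ℝ} (hc : 1 + c ≠ 0) {f : E n → ℝ} (hf : Measurable f) :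
    ∫ x, f (dl k c x) = (|1 + c| ^ (n - k))⁻¹ * ∫ x, f x := by
  rw [← integral_map (dl_cont c).aemeasurable hf.aestronglyMeasurable, dl_map hk hc,
    integral_smul_measure, ENNReal.toReal_ofReal (by positivity), smul_eq_mul]

theorem dl_int (hk : k ≤ n) {c : ℝ} (hc : 1 + c ≠ 0) {f : E n → ℝ} (hf : Measurable f)
    (hi : Integrable f) : Integrable fun x => f (dl k c x) := by
  refine (integrable_map_measure hf.aestronglyMeasurable (dl_cont c).aemeasurable).1 ?_
  rw [dl_map hk hc]
  exact hi.smul_measure ENNReal.ofReal_ne_top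

theorem dl_dl {c d : ℝ} (h : c + d + c * d = 0) (x : E n) : dl k c (dl k d x) = x := by
  rw [dl_apply, dl_apply, map_add, map_smul, pj_pj, smul_add, smul_smul, add_assoc, ← add_smul,
    ← add_smul, show d + (c + c * d) = 0 by linarith, zero_smul, add_zero]

theorem norm_refl (x : E n) : ‖dl k (-2) x‖ = ‖x‖ := by
  have := norm_add_pj (k := k) (-2) x
  rw [← dl_apply] at this
  exact (sq_eq_sq₀ (norm_nonneg _) (norm_nonneg _)).1 (by linarith)

theorem norm_sub_refl (x y : E n) : ‖x - dl k (-2) y‖ = ‖dl k (-2) x - y‖ := by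
  rw [← norm_refl (k := k), map_sub, dl_dl (by norm_num)]

theorem norm_le_dl {c : ℝ} (hc : 0 ≤ c) (x : E n) : ‖x‖ ≤ ‖dl k c x‖ := by
  have := norm_add_pj (k := k) c x
  rw [← dl_apply] at this
  exact abs_le_of_sq_le_sq' (by nlinarith [sq_nonneg ‖pj k x‖, sq_nonneg c]) (norm_nonneg _) |>.2

theorem norm_dl_le {c : ℝ} (hc : 0 ≤ c) (x : E n) : ‖dl k c x‖ ≤ (1 + c) * ‖x‖ := by
  have h1 := norm_add_le x (c • pj k x)
  rw [norm_smul, Real.norm_of_nonneg hc] at h1
  have h2 := mul_le_mul_of_nonneg_left (norm_pj_le (k := k) x) hc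
  rw [dl_apply]
  linarith

/-- Slab weight. -/
noncomputable def sl (k : ℕ) (K γ : ℝ) (z : E n) : ℝ :=
  (1 + ‖z - pj k z‖) ^ (-K) * (1 + ‖pj k z‖) ^ (-γ)

theorem sl_nonneg (K γ : ℝ) (z : E n) : 0 ≤ sl k K γ z := by unfold sl; positivity

theorem sl_meas (K γ : ℝ) : Measurable (sl k K γ : E n → ℝ) := by
  have := (pj_cont (n := n) (k := k)).measurable
  unfold sl
  fun_prop

theorem sl_int (hk : k ≤ n) {γ : ℝ} (hγ : (n : ℝ) - k < γ) :
    ∃ K, 0 ≤ K ∧ Integrable (sl k K γ : E n → ℝ) := by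
  have hm : ((n - k : ℕ) : ℝ) = n - k := Nat.cast_sub hk
  have hm0 : (0 : ℝ) ≤ (n - k : ℕ) := Nat.cast_nonneg _
  set m : ℝ := ((n - k : ℕ) : ℝ) with hm'
  set θ := (γ + 1) / (m + 1) with hθ
  have hθ1 : 1 < θ := by rw [hθ, one_lt_div (by positivity)]; linarith
  have hθm : θ * m ≤ γ := by
    rw [hθ, div_mul_eq_mul_div, div_le_iff₀ (by positivity)]; nlinarith
  have i1 : Integrable fun t : ℝ => (1 + ‖t‖) ^ (-θ) := integrable_one_add_norm (by simpa using hθ1)
  have i2 : Integrable fun z : Fin n → ℝ => ∏ i, (1 + ‖z i‖) ^ (-θ) :=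
    Integrable.fintype_prod (f := fun _ t => (1 + ‖t‖) ^ (-θ)) fun _ => i1
  have i3 : Integrable fun z : E n => ∏ i, (1 + ‖z i‖) ^ (-θ) :=
    (PiLp.volume_preserving_ofLp (Fin n)).integrable_comp_of_integrable i2
  refine ⟨θ * k, by positivity, i3.mono' (sl_meas _ _).aestronglyMeasurable
    (Eventually.of_forall fun z => ?_)⟩
  rw [Real.norm_of_nonneg (sl_nonneg _ _ _)]
  have h1 : ∏ i : Fin n, (if i.val < k then (1 + ‖z - pj k z‖) ^ (-θ) else (1 + ‖pj k z‖) ^ (-θ)) ≤
      ∏ i, (1 + ‖z i‖) ^ (-θ) := by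
    refine Finset.prod_le_prod (fun i _ => by split_ifs <;> positivity) fun i _ => ?_
    split_ifs with h
    · have := PiLp.norm_apply_le (z - pj k z) i
      simp only [PiLp.sub_apply, pj_apply, h, if_true, sub_zero] at this
      exact Real.rpow_le_rpow_of_nonpos (by positivity) (by linarith) (by linarith)
    · have := PiLp.norm_apply_le (pj k z) i
      simp only [pj_apply, h, if_false] at this
      exact Real.rpow_le_rpow_of_nonpos (by positivity) (by linarith) (by linarith)
  refine le_trans ?_ h1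
  rw [Finset.prod_ite, Finset.prod_const, Finset.prod_const, card_ge hk, Fin.card_filter_val_lt,
    min_eq_right hk, ← Real.rpow_natCast, ← Real.rpow_natCast, ← Real.rpow_mul (by positivity),
    ← Real.rpow_mul (by positivity), sl, neg_mul, neg_mul]
  exact mul_le_mul_of_nonneg_left (Real.rpow_le_rpow_of_exponent_le
    (by linarith [norm_nonneg (pj k z)]) (by linarith)) (by positivity)

/-- Positive weights that depend on the first `k` coordinates only and decay rapidly in them. -/
structure Wk (k : ℕ) (e : E n → ℝ) : Prop where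
  cont : Continuous e
  pos : ∀ y, 0 < e y
  inv : ∀ y x, e (y + pj k x) = e y
  decay : ∀ K : ℝ, ∃ C, 0 ≤ C ∧ ∀ y, e y ≤ C * (1 + ‖y - pj k y‖) ^ (-K)

theorem pev_rename (hk : k ≤ n) (q : MvPolynomial (Fin k) ℝ) (y : E n) :
    pev (MvPolynomial.rename (Fin.castLE hk) q) y =
      pev q (WithLp.toLp 2 fun j => y (Fin.castLE hk j)) := by
  simp only [pev, MvPolynomial.eval_rename]
  rfl

theorem wk_poly (hn : 1 ≤ n) (hk : k ≤ n) (q : MvPolynomial (Fin k) ℝ)
    (hq : Tendsto (pev q) (cocompact (E k)) atBot) :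
    Wk k fun y : E n => Real.exp (n * pev (MvPolynomial.rename (Fin.castLE hk) q) y) := by
  have hc := pev_continuous (MvPolynomial.rename (Fin.castLE hk) q)
  refine ⟨by fun_prop, fun y => Real.exp_pos _, fun y x => ?_, fun K => ?_⟩
  · rw [pev_rename, pev_rename]
    simp [pj_apply]
  · obtain ⟨N, hN⟩ := exists_nat_ge K
    obtain ⟨C, hC⟩ := loj q hq n (by exact_mod_cast hn) N
    refine ⟨C, le_trans (by positivity) (hC 0), fun y => ?_⟩
    have h1 : ‖(WithLp.toLp 2 fun j => y (Fin.castLE hk j) : E k)‖ = ‖y - pj k y‖ := by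
      rw [EuclideanSpace.norm_eq, EuclideanSpace.norm_eq]
      refine congrArg _ (Fintype.sum_of_injective _ (Fin.castLE_injective hk) _ _ (fun i hi => ?_)
        fun j => by simp [pj_apply])
      have : ¬ i.val < k := fun h => hi ⟨⟨i.val, h⟩, rfl⟩
      simp [pj_apply, this]
    have h2 := hC (WithLp.toLp 2 fun j => y (Fin.castLE hk j))
    rw [h1, ← pev_rename, ← Real.rpow_natCast] at h2
    have h3 : (1 + ‖y - pj k y‖) ^ K ≤ (1 + ‖y - pj k y‖) ^ (N : ℝ) :=
      Real.rpow_le_rpow_of_exponent_le (by linarith [norm_nonneg (y - pj k y)]) hN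
    rw [Real.rpow_neg (by positivity), ← div_eq_mul_inv, le_div_iff₀ (by positivity)]
    exact (mul_le_mul_of_nonneg_left h3 (Real.exp_pos _).le).trans h2

end Pool.Agent.Lib.MP_d59d86_an
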