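import Pool.Agent.Lib.MP_d59d86_an.Dg.Sol

/-! Weights invariant under a finite group of linear isometries. -/

namespace Pool.Agent.Lib.MP_d59d86_an

open MeasureTheory Filter Topology Set

variable {n : ℕ}

theorem exists_g (hn : 1 ≤ n) {W : E n → ℝ} (hm : Measurable W) (h0 : ∀ y, 0 ≤ W y)
    (hpos : ∀ y, y ≠ 0 → 0 < W y) (hi : Integrable W) {L : E n → E n → ℝ} {l : E n → ℝ}
    {b A β : ℝ} (mL : Measurable (Function.uncurry L)) (sL : ∀ x y, L x y = L y x)
    (ml : Measurable l) (l0 : ∀ x, 0 ≤ l x) (Ll : ∀ x y, L x y ≤ l x + l y)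
    (hA : ∀ x, Integrable (fun y => W y * Real.exp (-b * L x y)) ∧
      ∫ y, W y * Real.exp (-b * L x y) ≤ A)
    (hl : Integrable fun y => W y * Real.exp (l y)) (hβ : 0 ≤ β) (hb : β < b) :
    ∃ (g V : E n → ℝ) (M Z : ℝ), Measurable g ∧ (∀ x, 0 ≤ g x) ∧ (∀ x, g x ≤ M) ∧
      ∫ y, W y * g y = 1 ∧ (∀ x, V x = ∫ y, L x y * (W y * g y)) ∧ 0 < Z ∧
      ∀ x, g x = Real.exp (-(2 * β) * V x) / Z := by
  set μ : Measure (E n) := volume.withDensity fun y => ENNReal.ofReal (W y) with hμ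
  have hm' : Measurable fun y => ENNReal.ofReal (W y) := hm.ennreal_ofReal
  have hfin : ∀ᵐ y : E n, ENNReal.ofReal (W y) < ⊤ :=
    Eventually.of_forall fun _ => ENNReal.ofReal_lt_top
  have hint : ∀ g : E n → ℝ, Integrable g μ ↔ Integrable (fun y => W y * g y) := fun g => by
    rw [hμ, integrable_withDensity_iff_integrable_smul' hm' hfin]
    simp only [ENNReal.toReal_ofReal (h0 _), smul_eq_mul]
  have hintg : ∀ g : E n → ℝ, ∫ y, g y ∂μ = ∫ y, W y * g y := fun g => by
    rw [hμ, integral_withDensity_eq_integral_toReal_smul hm' hfin]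
    simp only [ENNReal.toReal_ofReal (h0 _), smul_eq_mul]
  have : IsFiniteMeasure μ := isFiniteMeasure_withDensity_ofReal hi.hasFiniteIntegral
  have : Nontrivial (E n) :=
    Module.nontrivial_of_finrank_pos (R := ℝ) (by rw [finrank_euclideanSpace_fin]; omega)
  have : NeZero μ := ⟨fun h0 => by
    have h1 : (volume : Measure (E n)) ≪ μ := by
      refine withDensity_absolutelyContinuous' hm'.aemeasurable ?_
      filter_upwards [ae_ne hn 0] with y hy
      exact (ENNReal.ofReal_pos.2 (hpos y hy)).ne'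
    rw [h0, Measure.absolutelyContinuous_zero_iff] at h1
    exact NeZero.ne _ h1⟩
  have hK : Ker μ L l b A := ⟨mL, sL, ml, l0, Ll, by linarith, fun x => (hint _).2 (hA x).1,
    fun x => by rw [hintg]; exact (hA x).2, (hint _).2 hl⟩
  obtain ⟨M, B, g, hg, hc, hfix⟩ := hK.exists_fixed hβ hb
  refine ⟨g, pot μ L g, M, part μ β (pot μ L g), hg.meas, hg.nonneg, hg.le,
    by rw [← hintg, hg.one], fun x => ?_, (hK.plow_pos hβ B).trans_le (hK.plow_le hβ hc), hfix⟩
  rw [pot, hintg]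
  exact integral_congr_ae (Eventually.of_forall fun y => by ring)

theorem Wt.dn {a M : ℝ} {w g : E n → ℝ} (hw : Wt a w) (hn : 1 ≤ n) (ha : a < n)
    (hg : Measurable g) (g0 : ∀ x, 0 ≤ g x) (gM : ∀ x, g x ≤ M) : Dn a fun y => w y * g y := by
  have hM : 0 ≤ M := (g0 0).trans (gM 0)
  have hle : ∀ y, w y * g y ≤ M * w y := fun y => by nlinarith [hw.nonneg y, gM y]
  have h0 : ∀ y, 0 ≤ w y * g y := fun y => mul_nonneg (hw.nonneg y) (g0 y)
  have hm := hw.meas.mul hg
  obtain ⟨C, hC0, hC⟩ := hw.decay 1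
  refine ⟨hm, h0, ((hw.int0 hn ha).const_mul M).mono' hm.aestronglyMeasurable
    (Eventually.of_forall fun y => by rw [Real.norm_of_nonneg (h0 y)]; exact hle y),
    ((hw.int hn ha 1).const_mul M).mono'
      (Measurable.aestronglyMeasurable (Measurable.mul (by fun_prop) hm))
      (Eventually.of_forall fun y => ?_), ⟨M * C, by positivity, fun y => ?_⟩,
    ⟨1, M * C, one_pos, by positivity, fun y hy => ?_⟩⟩
  · rw [Real.norm_of_nonneg (mul_nonneg (log1_nonneg y) (h0 y)), pow_one, ← mul_assoc M, mul_comm]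
    exact mul_le_mul (hle y) (by linarith [log1_le y]) (log1_nonneg y)
      (mul_nonneg hM (hw.nonneg y))
  · have h1 := hC y
    have h2 : w y ≤ w y * (1 + ‖y‖) ^ 1 := by nlinarith [hw.nonneg y, norm_nonneg y]
    nlinarith [hle y]
  · have h1 := hC y
    have h4 : kb a y = 0 := indicator_of_notMem (by simpa using hy) _
    rw [h4, pow_one, add_zero, mul_one] at h1
    rw [Real.rpow_neg_one, ← div_eq_mul_inv, le_div_iff₀ (by linarith)]
    nlinarith [hle y, hw.nonneg y, mul_le_mul_of_nonneg_right (hle y) (norm_nonneg y)]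

variable {G : Subgroup (E n ≃ₗᵢ[ℝ] E n)} [Fintype G]

open Classical in
theorem cluster {N : ℕ} (hN : ∀ x : E n, x ≠ 0 → N ≤ {y | ∃ g ∈ G, g x = y}.ncard) :
    ∃ c : ℝ, 0 < c ∧ ∀ x y : E n,
      N * (Finset.univ.filter fun g : G => ‖x - g.1 y‖ < c * ‖y‖).card ≤ Fintype.card G := by
  have key : ∀ S : Finset G, ∃ K : ℝ, 0 ≤ K ∧ (Fintype.card G < N * S.card →
      ∀ (y : E n) (t : ℝ), (∀ g ∈ S, ∀ h ∈ S, ‖g.1 y - h.1 y‖ ≤ t) → 0 ≤ t → ‖y‖ ≤ K * t) := by
    intro S
    by_cases hS : Fintype.card G < N * S.card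
    swap
    · exact ⟨0, le_rfl, fun h => absurd h hS⟩
    let T : E n →ₗ[ℝ] (S × S → E n) := LinearMap.pi fun p =>
      p.1.1.1.toLinearEquiv.toLinearMap - p.2.1.1.toLinearEquiv.toLinearMap
    have hT : LinearMap.ker T = ⊥ := by
      refine LinearMap.ker_eq_bot'.2 fun y hy => by_contra fun hy0 => ?_
      obtain ⟨g0, hg0⟩ : S.Nonempty := Finset.card_pos.1 (Nat.pos_of_mul_pos_left (hS.trans_le' (Nat.zero_le _)))
      have h1 : ∀ g ∈ S, g.1 y = g0.1 y := fun g hg =>
        sub_eq_zero.1 (congrFun hy (⟨g, hg⟩, ⟨g0, hg0⟩))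
      have h2 := Finset.mul_card_image_le_card (f := fun g : G => g.1 y) Finset.univ S.card (by
        intro z hz
        obtain ⟨h, -, rfl⟩ := Finset.mem_image.1 hz
        refine Finset.card_le_card_of_injOn (fun g => h * g0⁻¹ * g) (fun g hg => ?_)
          (mul_right_injective _).injOn
        simp [h1 g hg])
      have h3 := hN y hy0
      have e : {z | ∃ g ∈ G, g y = z} = ↑(Finset.univ.image fun g : G => g.1 y) := by
        ext z; simp
      rw [e, ncard_coe_finset] at h3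
      rw [Finset.card_univ] at h2
      nlinarith
    obtain ⟨K, -, hK⟩ := T.exists_antilipschitzWith hT
    refine ⟨K, K.2, fun _ y t ht ht0 => (hK.le_mul_norm T.map_zero y).trans ?_⟩
    exact mul_le_mul_of_nonneg_left ((pi_norm_le_iff_of_nonneg ht0).2 fun p =>
      ht _ p.1.2 _ p.2.2) K.2
  choose K K0 hK using key
  have hs : 0 ≤ ∑ S, K S := Finset.sum_nonneg fun S _ => K0 S
  refine ⟨1 / (2 * (∑ S, K S + 1)), by positivity, fun x y => le_of_not_gt fun hlt => ?_⟩
  set c := 1 / (2 * (∑ S, K S + 1)) with hc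
  set S := Finset.univ.filter fun g : G => ‖x - g.1 y‖ < c * ‖y‖ with hS
  obtain ⟨g0, hg0⟩ : S.Nonempty := Finset.card_pos.1 
    (Nat.pos_of_mul_pos_left (hlt.trans_le' (Nat.zero_le _)))
  have hy : 0 < c * ‖y‖ := (norm_nonneg _).trans_lt (Finset.mem_filter.1 hg0).2
  have h1 := hK S hlt y (2 * (c * ‖y‖)) (fun g hg h hh => by
    have := norm_sub_le (x - h.1 y) (x - g.1 y)
    rw [sub_sub_sub_cancel_left] at this
    linarith [(Finset.mem_filter.1 hg).2, (Finset.mem_filter.1 hh).2]) (by linarith)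
  have h2 : K S ≤ ∑ S, K S := Finset.single_le_sum (fun S _ => K0 S) (Finset.mem_univ S)
  have h3 : (∑ S, K S + 1) * (2 * (c * ‖y‖)) = ‖y‖ := by rw [hc]; field_simp
  nlinarith

/-- The logarithmic kernel averaged over the group. -/
noncomputable def LG (G : Subgroup (E n ≃ₗᵢ[ℝ] E n)) [Fintype G] (x y : E n) : ℝ :=
  (∑ g : G, Real.log ‖x - g.1 y‖) / Fintype.card G

omit [Fintype G] in
theorem norm_sub_inv (g : G) (x y : E n) : ‖x - g.1 y‖ = ‖(g⁻¹).1 x - y‖ := by
  rw [← (g⁻¹).1.norm_map, map_sub]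
  simp

open Classical in
theorem LG_lower {N : ℕ} (hN1 : 1 ≤ N) {c b : ℝ} (hc : 0 < c) (hb : 0 ≤ b) {x y : E n} (hy : y ≠ 0)
    (hxy : ∀ g : G, x - g.1 y ≠ 0)
    (h : N * (Finset.univ.filter fun g : G => ‖x - g.1 y‖ < c * ‖y‖).card ≤ Fintype.card G) :
    Real.exp (-b * LG G x y) ≤ (c * ‖y‖) ^ (-(b * (1 - 1 / N))) *
      ∑ g : G, Real.exp (-(b / N) * Real.log ‖(g⁻¹).1 x - y‖) := by
  obtain ⟨g0, -, hg0⟩ := Finset.exists_min_image Finset.univ (fun g : G => ‖x - g.1 y‖)
    Finset.univ_nonempty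
  have hr := norm_pos_iff.2 (hxy g0)
  have hcy : 0 < c * ‖y‖ := mul_pos hc (norm_pos_iff.2 hy)
  set r := Real.log ‖x - g0.1 y‖
  set s := max r (Real.log (c * ‖y‖))
  set S := Finset.univ.filter fun g : G => ‖x - g.1 y‖ < c * ‖y‖ with hS
  have h1 : ∑ g : G, (if ‖x - g.1 y‖ < c * ‖y‖ then r else s) ≤ ∑ g : G, Real.log ‖x - g.1 y‖ := by
    refine Finset.sum_le_sum fun g _ => ?_
    have h2 := Real.log_le_log hr (hg0 g (Finset.mem_univ g))
    split_ifs with h3
    · exact h2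
    · exact max_le h2 (Real.log_le_log hcy (not_lt.1 h3))
  have h2 := Finset.card_filter_add_card_filter_not (s := (Finset.univ : Finset G))
    fun g : G => ‖x - g.1 y‖ < c * ‖y‖
  rw [Finset.sum_ite, Finset.sum_const, Finset.sum_const, nsmul_eq_mul, nsmul_eq_mul] at h1
  rw [Finset.card_univ] at h2
  have hN : (1 : ℝ) ≤ N := by exact_mod_cast hN1
  have hG : (0 : ℝ) < Fintype.card G := by exact_mod_cast Fintype.card_pos
  have h3 : (S.card : ℝ) ≤ Fintype.card G * (1 / N) := by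
    rw [mul_one_div, le_div_iff₀ (by positivity), mul_comm]; exact_mod_cast h
  have h4 : ((Finset.univ.filter fun g : G => ¬ ‖x - g.1 y‖ < c * ‖y‖).card : ℝ) =
      Fintype.card G - S.card := by rw [← h2]; push_cast; ring
  have h5 : 0 ≤ 1 - 1 / (N : ℝ) := by rw [sub_nonneg, div_le_one (by positivity)]; exact hN
  have h6 : 1 / N * r + (1 - 1 / N) * Real.log (c * ‖y‖) ≤ LG G x y := by
    rw [LG, le_div_iff₀ hG]
    refine le_trans ?_ h1
    rw [h4]
    have h7 := mul_le_mul_of_nonneg_left (le_max_right r (Real.log (c * ‖y‖))) (mul_nonneg h5 hG.le)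
    have h8 := mul_le_mul_of_nonneg_right h3 (sub_nonneg.2 (le_max_left r (Real.log (c * ‖y‖))))
    nlinarith
  calc _ ≤ Real.exp (Real.log (c * ‖y‖) * (-(b * (1 - 1 / N))) + -(b / N) * r) := by
        refine Real.exp_le_exp.2 ?_
        have := mul_le_mul_of_nonneg_left h6 hb
        have e : b / N = b * (1 / N) := by ring
        rw [e]
        nlinarith
    _ ≤ _ := by
        rw [Real.exp_add, ← Real.rpow_def_of_pos hcy]
        refine mul_le_mul_of_nonneg_left ?_ (by positivity)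
        simp only [← norm_sub_inv]
        exact Finset.single_le_sum (f := fun g : G => Real.exp (-(b / N) * Real.log ‖x - g.1 y‖))
          (fun g _ => (Real.exp_pos _).le) (Finset.mem_univ g0)

theorem main_sym {k : ℕ} (hk : 1 ≤ k) (α Λ : ℝ) (hα : -1 < α) (hΛ : 0 < Λ)
    (G : Subgroup (E (k + 1) ≃ₗᵢ[ℝ] E (k + 1))) [Finite G] (N : ℕ)
    (hN : ∀ x : E (k + 1), x ≠ 0 → N ≤ {y | ∃ g ∈ G, g x = y}.ncard)
    (hΛ1 : Λ < lambdaOne (k + 1) * min (N : ℝ) (1 + α)) (p : MvPolynomial (Fin (k + 1)) ℝ)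
    (hdeg : p.totalDegree ≤ k) (hp : Tendsto (pev p) (cocompact (E (k + 1))) atBot)
    (hinv : ∀ g ∈ G, ∀ x, pev p (g x) = pev p x) :
    ∃ (u : E (k + 1) → ℝ) (C : ℝ), IsWeakSol (k + 1) α u ∧ ∫ x, rhs (k + 1) α u x = Λ ∧
      Tendsto (fun x => u x - pev p x + 2 * Λ / lambdaOne (k + 1) * Real.log ‖x‖)
        (cocompact (E (k + 1))) (𝓝 C) ∧ ∀ g ∈ G, ∀ x, u (g x) = u x := by
  classical
  have := Fintype.ofFinite G
  have hL : 0 < lambdaOne (k + 1) := by rw [lambdaOne_eq]; linarith [gam_pos k]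
  have hn : 1 ≤ k + 1 := by omega
  set D : ℝ := ((k + 1 : ℕ) : ℝ) with hD
  have hD0 : 0 < D := by positivity
  set lam := Λ / lambdaOne (k + 1) with hlam
  have hlam0 : 0 < lam := div_pos hΛ hL
  have hlam1 : lam < min (N : ℝ) (1 + α) := by rw [hlam, div_lt_iff₀ hL]; linarith
  obtain ⟨l', h1', h2'⟩ := exists_between hlam1
  rw [lt_min_iff] at h2'
  have hN0 : (0 : ℝ) < N := by linarith [h2'.1]
  have hN1 : 1 ≤ N := by exact_mod_cast hN0
  have hb : 0 < D * l' := mul_pos hD0 (by linarith)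
  obtain ⟨c, hc, hcl⟩ := cluster hN
  have hw := wt_poly hn α p hp
  have hw' := wt_poly hn (α - l' * (1 - 1 / N)) p hp
  have ha : max 0 (-(D * α)) < D := max_lt hD0 (by nlinarith)
  have e1 : D * l' / N = D * (l' / N) := by ring
  obtain ⟨A, hA⟩ := hw'.sing hn (le_max_left _ _) (b := D * l' / N) (by positivity) (by
    rw [← hD, ← lt_sub_iff_add_lt, max_lt_iff, e1]
    have h3 : l' / N < 1 := (div_lt_one hN0).2 h2'.1
    have e2 : l' * (1 - 1 / N) = l' - l' / N := by ring
    rw [e2]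
    constructor <;> nlinarith [h2'.2])
  have hG : (0 : ℝ) < Fintype.card G := by exact_mod_cast Fintype.card_pos
  have hmL : Measurable (Function.uncurry (LG G)) := by
    unfold Function.uncurry LG
    refine Measurable.div_const (Finset.measurable_sum _ fun g _ => ?_) _
    have := g.1.continuous.measurable
    fun_prop
  obtain ⟨g, V, M, Z, gm, g0, gM, h1, hV, hZ, hfix⟩ := exists_g hn hw.meas hw.nonneg
    (fun y hy => mul_pos (Real.exp_pos _) (Real.rpow_pos_of_pos (norm_pos_iff.2 hy) _))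
    (hw.int0 hn ha) (L := LG G) (l := fun x => Real.log (1 + ‖x‖)) (b := D * l') (β := D * lam)
    (A := c ^ (-(D * l' * (1 - 1 / N))) * ∑ _g : G, A) hmL
    (fun x y => by
      unfold LG
      rw [← Equiv.sum_comp (Equiv.inv G)]
      simp only [Equiv.inv_apply, norm_sub_inv _ x, inv_inv, norm_sub_rev y])
    (by fun_prop) log1_nonneg
    (fun x y => by
      rw [LG, div_le_iff₀ hG, mul_comm, ← nsmul_eq_mul]
      exact Finset.sum_le_card_nsmul _ _ _ fun g _ => by simpa using log_sub_le x (g.1 y))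
    (fun x => by
      have i1 := (integrable_finsetSum Finset.univ fun (g : G) _ => (hA ((g⁻¹).1 x)).1).const_mul
        (c ^ (-(D * l' * (1 - 1 / N))))
      have hle : ∀ᵐ y : E (k + 1), Real.exp (D * pev p y) * ‖y‖ ^ (D * α) *
          Real.exp (-(D * l') * LG G x y) ≤ c ^ (-(D * l' * (1 - 1 / N))) * ∑ g : G,
          Real.exp (D * pev p y) * ‖y‖ ^ (D * (α - l' * (1 - 1 / N))) *
          Real.exp (-(D * l' / N) * Real.log ‖(g⁻¹).1 x - y‖) := by
        filter_upwards [ae_ne hn 0, ae_all_iff.2 fun g : G => ae_ne hn ((g⁻¹).1 x)] with y hy hx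
        have h3 := LG_lower hN1 hc hb.le hy (fun g => norm_ne_zero_iff.1 (by
          rw [norm_sub_inv]; exact norm_ne_zero_iff.2 (sub_ne_zero.2 (hx g).symm))) (hcl x y)
        refine (mul_le_mul_of_nonneg_left h3 (by positivity)).trans (le_of_eq ?_)
        rw [← Finset.mul_sum, Real.mul_rpow hc.le (norm_nonneg _), show D * (α - l' * (1 - 1 / N)) =
          D * α + -(D * l' * (1 - 1 / N)) by ring, Real.rpow_add (norm_pos_iff.2 hy)]
        ring
      have i2 : Integrable fun y => Real.exp (D * pev p y) * ‖y‖ ^ (D * α) *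
          Real.exp (-(D * l') * LG G x y) := i1.mono' (Measurable.aestronglyMeasurable
        (hw.meas.mul ((hmL.of_uncurry_left.const_mul _).exp)))
        (hle.mono fun y hy => by rwa [Real.norm_of_nonneg (by positivity)])
      refine ⟨i2, (integral_mono_ae i2 i1 hle).trans ?_⟩
      rw [integral_const_mul, integral_finsetSum _ fun (g : G) _ => (hA ((g⁻¹).1 x)).1]
      exact mul_le_mul_of_nonneg_left (Finset.sum_le_sum fun g _ => (hA _).2) (by positivity))
    ((hw.int hn ha 1).congr (Eventually.of_forall fun y => by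
      simp only; rw [Real.exp_log (by positivity), pow_one])) (by positivity) (by nlinarith)
  have hρ := hw.dn hn ha gm g0 gM
  set ρ := fun y => Real.exp (D * pev p y) * ‖y‖ ^ (D * α) * g y with hρ'
  have hρi : ∀ (h : G) x, ρ (h.1 x) = ρ x := fun h x => by
    have e : ∀ y, LG G (h.1 x) y = LG G x y := fun y => by
      unfold LG
      rw [← Equiv.sum_comp (Equiv.mulLeft h)]
      simp [← map_sub]
    simp only [hρ', hfix (h.1 x), hfix x, hV, e, hinv h.1 h.2, LinearIsometryEquiv.norm_map]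
  have hU : ∀ (h : G) x, lp ρ (h.1 x) = lp ρ x := fun h x => by
    rw [lp, ← h.1.measurePreserving.integral_comp h.1.toHomeomorph.measurableEmbedding]
    simp only [hρi, ← map_sub, LinearIsometryEquiv.norm_map, lp]
  obtain ⟨B, hB⟩ := hρ.log_bound hn (le_max_left _ _) ha
  have hVU : ∀ x, V x = lp ρ x := fun x => by
    have e : ∀ y, LG G x y * ρ y =
        (∑ g : G, Real.log ‖(g⁻¹).1 x - y‖ * ρ y) / Fintype.card G := fun y => by
      simp only [LG, ← norm_sub_inv, ← Finset.sum_mul]; ring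
    rw [hV]
    change ∫ y, LG G x y * ρ y = _
    simp only [e]
    rw [integral_div, integral_finsetSum _ fun (g : G) _ => (hB ((g⁻¹).1 x)).1]
    change (∑ g : G, lp ρ ((g⁻¹).1 x)) / _ = _
    simp only [hU, Finset.sum_const, Finset.card_univ, nsmul_eq_mul]
    field_simp
  obtain ⟨u, C, hu, -, h3, h4, -, h5⟩ := hρ.sol hk (α := α) (le_max_left _ _) ha h1 hΛ hZ p hdeg
    fun x => by rw [← hVU, mul_div_assoc, ← hfix]
  exact ⟨u, C, h3, h4, h5, fun g hg x => by rw [hu, hu, hinv g hg, hU ⟨g, hg⟩]⟩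

end Pool.Agent.Lib.MP_d59d86_an
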