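import Pool.Agent.Lib.MP_d59d86_an.Dg.Geo
import Pool.Agent.Lib.MP_d59d86_an.Dg.Sym

/-! Kernel estimates for weights that do not decay in the last `n - k` coordinates. -/

namespace Pool.Agent.Lib.MP_d59d86_an

open MeasureTheory Filter Topology Set

variable {n k : ℕ} {e : E n → ℝ} {a c : ℝ}

/-- The weight with a singularity at the origin and a power at infinity. -/
noncomputable def wt (e : E n → ℝ) (a c : ℝ) (y : E n) : ℝ :=
  e y * ‖y‖ ^ (-a) * (1 + ‖y‖) ^ (-c)

theorem Wk.wt_nonneg (h : Wk k e) (a c : ℝ) (y : E n) : 0 ≤ wt e a c y := by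
  have := h.pos y
  unfold wt; positivity

theorem Wk.wt_meas (h : Wk k e) (a c : ℝ) : Measurable (wt e a c) := by
  have := h.cont.measurable
  unfold wt; fun_prop

theorem Wk.dl_inv (h : Wk k e) (s : ℝ) (y : E n) : e (dl k s y) = e y := by
  rw [dl_apply, ← map_smul, h.inv]

theorem rpow_le_kb (ha : 0 ≤ a) (y : E n) : ‖y‖ ^ (-a) ≤ 1 + kb a y := by
  have h1 := kb_nonneg a y
  rcases le_or_gt 1 ‖y‖ with h | h
  · linarith [Real.rpow_le_one_of_one_le_of_nonpos h (show -a ≤ 0 by linarith)]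
  · rw [kb_of_lt _ h]; linarith

theorem one_add_le_one (hc : 0 ≤ c) (y : E n) : (1 + ‖y‖) ^ (-c) ≤ 1 :=
  Real.rpow_le_one_of_one_le_of_nonpos (by linarith [norm_nonneg y]) (by linarith)

theorem slab {γ : ℝ} (hγ : 0 ≤ γ) (K : ℝ) {x y : E n} (h : 1 ≤ ‖x - y‖) :
    (1 + ‖y - pj k y‖) ^ (-K) * ‖x - y‖ ^ (-γ) ≤ 2 ^ γ * sl k K γ (y - pj k x) := by
  have h1 : ‖pj k (y - x)‖ ≤ ‖x - y‖ := (norm_pj_le _).trans (norm_sub_rev _ _).le
  have h2 : ‖x - y‖ ^ (-γ) ≤ ((1 + ‖pj k (y - x)‖) / 2) ^ (-γ) :=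
    Real.rpow_le_rpow_of_nonpos (by positivity) (by linarith) (by linarith)
  rw [Real.div_rpow (by positivity) (by norm_num), Real.rpow_neg (x := 2) (by norm_num),
    div_inv_eq_mul] at h2
  rw [sl, map_sub, pj_pj, sub_sub_sub_cancel_right, ← map_sub]
  exact (mul_le_mul_of_nonneg_left h2 (by positivity)).trans (le_of_eq (by ring))

theorem Wk.bdd (h : Wk k e) : ∃ C, 0 ≤ C ∧ ∀ y, e y ≤ C := by simpa using h.decay 0

theorem Wk.wt_int (h : Wk k e) (hn : 1 ≤ n) (hk : k ≤ n) (ha : 0 ≤ a) (han : a < n) (hc : 0 ≤ c)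
    (hac : (n : ℝ) - k < a + c) : Integrable (wt e a c) := by
  obtain ⟨K, -, hK⟩ := sl_int hk hac
  obtain ⟨C0, hC0, h0⟩ := h.bdd
  obtain ⟨C, hC, h1⟩ := h.decay K
  refine (((kb_int hn han).const_mul C0).add (hK.const_mul (C * 2 ^ (a + c)))).mono'
    (h.wt_meas a c).aestronglyMeasurable (Eventually.of_forall fun y => ?_)
  rw [Real.norm_of_nonneg (h.wt_nonneg a c y), Pi.add_apply, wt]
  have h2 := kb_nonneg a y
  have h3 := sl_nonneg (k := k) K (a + c) y
  rcases le_or_gt 1 ‖y‖ with hy | hy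
  · have h4 := slab (k := k) (add_nonneg ha hc) K (x := 0) (y := y) (by simpa using hy)
    rw [zero_sub, norm_neg, map_zero, sub_zero, neg_add, Real.rpow_add (by linarith)] at h4
    have h5 : (1 + ‖y‖) ^ (-c) ≤ ‖y‖ ^ (-c) :=
      Real.rpow_le_rpow_of_nonpos (by linarith) (by linarith) (by linarith)
    calc _ ≤ C * (1 + ‖y - pj k y‖) ^ (-K) * ‖y‖ ^ (-a) * ‖y‖ ^ (-c) := by gcongr; exact h1 y
      _ ≤ C * (2 ^ (a + c) * sl k K (a + c) y) := by
          rw [mul_assoc, mul_assoc]; exact mul_le_mul_of_nonneg_left h4 hC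
      _ ≤ _ := by rw [← mul_assoc]; exact le_add_of_nonneg_left (by positivity)
  · calc _ ≤ C0 * ‖y‖ ^ (-a) * 1 := by
          gcongr
          exacts [h0 y, one_add_le_one hc y]
      _ ≤ _ := by rw [mul_one, ← kb_of_lt a hy]; exact le_add_of_nonneg_right (by positivity)

theorem Wk.ker_pt (h : Wk k e) (ha : 0 ≤ a) (hc : 0 ≤ c) {b : ℝ} (hb : 0 ≤ b) (hs : b / 2 ≤ a + c)
    (K : ℝ) (hK : 0 ≤ K) : ∃ C, 0 ≤ C ∧ ∀ (x y : E n) (r' : ℝ), y ≠ 0 → x - y ≠ 0 →
      ‖x - y‖ ≤ r' → ‖pj k x‖ ≤ r' →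
      wt e a c y * (‖x - y‖ ^ (-(b / 2)) * r' ^ (-(b / 2)) * (1 + ‖x‖) ^ b) ≤
        C * (wt e a c y + (kb b (x - y) + (kb (a + b) y + kb (a + b) (x - y))) +
          sl k K (a + c) (y - pj k x)) := by
  obtain ⟨C0, hC0, h0⟩ := h.bdd
  obtain ⟨C, hC, h1⟩ := h.decay (K + b / 2)
  set s := a + c - b / 2 with hs'
  have hs0 : 0 ≤ s := by linarith
  refine ⟨8 ^ b * (1 + C0 + C * 4 ^ s + C * 2 ^ (a + c)), by positivity,
    fun x y r' hy hz h2 h3 => ?_⟩
  have hr := norm_pos_iff.2 hz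
  have hx := norm_nonneg x
  set r := ‖x - y‖ with hr'
  set τ := (1 + ‖x‖) / 8 with hτ'
  have hτ : 0 < τ := by positivity
  have e1 : (1 + ‖x‖) ^ b = 8 ^ b * τ ^ b := by
    rw [← Real.mul_rpow (by norm_num) hτ.le, hτ']; congr 1; ring
  have p1 := h.wt_nonneg a c y
  have p2 := kb_nonneg b (x - y)
  have p3 := kb_nonneg (a + b) y
  have p4 := kb_nonneg (a + b) (x - y)
  have p5 := sl_nonneg (k := k) K (a + c) (y - pj k x)
  have p6 : (0 : ℝ) < 8 ^ b := by positivity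
  have p7 : 0 ≤ C * 4 ^ s := by positivity
  have p8 : 0 ≤ C * 2 ^ (a + c) := by positivity
  have mono : ∀ {u v : ℝ}, 0 < u → u ≤ v → v ^ (-(b / 2)) ≤ u ^ (-(b / 2)) := fun hu huv =>
    Real.rpow_le_rpow_of_nonpos hu huv (by linarith)
  have fin : ∀ {X D T : ℝ}, X ≤ 8 ^ b * (D * T) → 0 ≤ T → D ≤ 1 + C0 + C * 4 ^ s + C * 2 ^ (a + c) →
      T ≤ wt e a c y + (kb b (x - y) + (kb (a + b) y + kb (a + b) (x - y))) +
        sl k K (a + c) (y - pj k x) → X ≤ 8 ^ b * (1 + C0 + C * 4 ^ s + C * 2 ^ (a + c)) *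
        (wt e a c y + (kb b (x - y) + (kb (a + b) y + kb (a + b) (x - y))) +
          sl k K (a + c) (y - pj k x)) := fun hX hT hD hT' => by
    rw [mul_assoc]
    exact hX.trans (mul_le_mul_of_nonneg_left (mul_le_mul hD hT' hT (by positivity)) p6.le)
  have e3 : r ^ (-(b / 2)) * r ^ (-(b / 2)) = r ^ (-b) := by
    rw [← Real.rpow_add hr]; congr 1; ring
  have hr'0 : 0 ≤ r' ^ (-(b / 2)) := Real.rpow_nonneg (by linarith) _
  rcases le_or_gt τ r with c1 | c1
  · refine fin (D := 1) (T := wt e a c y) ?_ p1 (by linarith) (by linarith)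
    have e2 : τ ^ (-(b / 2)) * τ ^ (-(b / 2)) * τ ^ b = 1 := by
      rw [← Real.rpow_add hτ, ← Real.rpow_add hτ, ← Real.rpow_zero τ]; congr 1; ring
    calc _ ≤ wt e a c y * (τ ^ (-(b / 2)) * τ ^ (-(b / 2)) * (8 ^ b * τ ^ b)) := by
          have a1 := mono hτ c1
          have a2 := mono hτ (c1.trans h2)
          rw [e1]; gcongr
      _ = 8 ^ b * (wt e a c y * (τ ^ (-(b / 2)) * τ ^ (-(b / 2)) * τ ^ b)) := by ring
      _ = _ := by rw [e2]; ring
  rcases le_or_gt ‖x‖ 1 with c2 | c2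
  · have h4 : r < 1 := by linarith
    have h5 := kb_mul_le ha hb hy hz
    refine fin (D := C0) (T := kb b (x - y) + (kb (a + b) y + kb (a + b) (x - y))) ?_
      (by positivity) (by linarith) (by linarith)
    have p9 := kb_nonneg a y
    calc _ ≤ C0 * (1 + kb a y) * 1 * (r ^ (-(b / 2)) * r ^ (-(b / 2)) * 8 ^ b) := by
          have a1 := mono hr h2
          have a2 := h0 y
          have a3 := rpow_le_kb ha y
          have a4 := one_add_le_one hc y
          rw [wt]; gcongr; linarith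
      _ = 8 ^ b * (C0 * (kb b (x - y) + kb a y * kb b (x - y))) := by
          rw [e3, kb_of_lt b h4]; ring
      _ ≤ _ := by gcongr
  have h4 : ‖x‖ ≤ r + ‖y‖ := by simpa using norm_add_le (x - y) y
  have h5 : τ ≤ ‖y‖ := by linarith
  have h6 : (1 + ‖y - pj k y‖) ^ (-(K + b / 2)) =
      (1 + ‖y - pj k y‖) ^ (-K) * (1 + ‖y - pj k y‖) ^ (-(b / 2)) := by
    rw [← Real.rpow_add (by positivity), neg_add]
  set e2 := (1 + ‖y - pj k y‖) ^ (-K) with he2
  have q0 : 0 ≤ e2 := by positivity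
  have h7 : e y * r' ^ (-(b / 2)) ≤ C * e2 * τ ^ (-(b / 2)) * max 1 (r ^ (-(b / 2))) := by
    have h8 := h1 y
    rw [h6] at h8
    rcases le_or_gt τ ‖pj k x‖ with c3 | c3
    · calc _ ≤ C * (e2 * 1) * τ ^ (-(b / 2)) := by
            refine mul_le_mul (h8.trans ?_) (mono hτ (c3.trans h3)) hr'0 (by positivity)
            gcongr
            exact one_add_le_one (by linarith) _
        _ ≤ _ := by rw [mul_one]; exact le_mul_of_one_le_right (by positivity) (le_max_left _ _)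
    · have h9 : ‖x‖ ≤ ‖x - pj k x‖ + ‖pj k x‖ := by simpa using norm_add_le (x - pj k x) (pj k x)
      have h10 : ‖x - pj k x‖ ≤ ‖x - y - pj k (x - y)‖ + ‖y - pj k y‖ := by
        refine le_trans (le_of_eq ?_) (norm_add_le _ _)
        rw [map_sub]; congr 1; abel
      have h11 := norm_sub_pj_le (k := k) (x - y)
      refine mul_le_mul (h8.trans ?_) ((mono hr h2).trans (le_max_right _ _)) hr'0 (by positivity)
      have a1 := mono hτ (show τ ≤ 1 + ‖y - pj k y‖ by linarith)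
      rw [mul_assoc]
      gcongr
  have h8 : wt e a c y * (r ^ (-(b / 2)) * r' ^ (-(b / 2)) * (1 + ‖x‖) ^ b) ≤
      8 ^ b * (C * e2 * τ ^ (-s) * r ^ (-(b / 2)) * max 1 (r ^ (-(b / 2)))) := by
    have e4 : τ ^ (-s) = τ ^ (-(b / 2)) * τ ^ (-a) * τ ^ (-c) * τ ^ b := by
      rw [← Real.rpow_add hτ, ← Real.rpow_add hτ, ← Real.rpow_add hτ, hs']; congr 1; ring
    have h9 : ‖y‖ ^ (-a) ≤ τ ^ (-a) := Real.rpow_le_rpow_of_nonpos hτ h5 (by linarith)
    have h10 : (1 + ‖y‖) ^ (-c) ≤ τ ^ (-c) :=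
      Real.rpow_le_rpow_of_nonpos hτ (by linarith) (by linarith)
    calc _ = e y * r' ^ (-(b / 2)) * ‖y‖ ^ (-a) * (1 + ‖y‖) ^ (-c) *
          (r ^ (-(b / 2)) * (8 ^ b * τ ^ b)) := by rw [wt, e1]; ring
      _ ≤ C * e2 * τ ^ (-(b / 2)) * max 1 (r ^ (-(b / 2))) * τ ^ (-a) * τ ^ (-c) *
          (r ^ (-(b / 2)) * (8 ^ b * τ ^ b)) := by gcongr
      _ = _ := by rw [e4]; ring
  rcases le_or_gt 1 r with c3 | c3
  · refine fin (D := C * 2 ^ (a + c)) (T := sl k K (a + c) (y - pj k x)) (h8.trans ?_) p5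
      (by linarith) (by linarith)
    have h9 := slab (k := k) (add_nonneg ha hc) K c3
    have e4 : r ^ (-(a + c)) = r ^ (-s) * r ^ (-(b / 2)) := by
      rw [← Real.rpow_add hr, hs']; congr 1; ring
    rw [max_eq_left (Real.rpow_le_one_of_one_le_of_nonpos c3 (by linarith)), mul_one]
    calc _ ≤ 8 ^ b * (C * e2 * r ^ (-s) * r ^ (-(b / 2))) := by
          have a1 : τ ^ (-s) ≤ r ^ (-s) := Real.rpow_le_rpow_of_nonpos hr c1.le (by linarith)
          gcongr
      _ = 8 ^ b * (C * (e2 * r ^ (-(a + c)))) := by rw [e4]; ring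
      _ ≤ 8 ^ b * (C * (2 ^ (a + c) * sl k K (a + c) (y - pj k x))) := by gcongr
      _ = _ := by ring
  · refine fin (D := C * 4 ^ s) (T := kb b (x - y)) (h8.trans ?_) p2 (by linarith) (by linarith)
    have h9 : τ ^ (-s) ≤ 4 ^ s := by
      rw [Real.rpow_neg hτ.le, ← Real.inv_rpow hτ.le]
      exact Real.rpow_le_rpow (by positivity) (inv_le_of_inv_le₀ (by norm_num) (by linarith)) hs0
    rw [max_eq_right (Real.one_le_rpow_of_pos_of_le_one_of_nonpos hr c3.le (by linarith))]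
    calc _ ≤ 8 ^ b * (C * 1 * 4 ^ s * r ^ (-(b / 2)) * r ^ (-(b / 2))) := by
          gcongr; exact one_add_le_one hK _
      _ = _ := by rw [kb_of_lt b c3, ← e3]; ring

/-- The chordal logarithmic kernel averaged over the reflection. -/
noncomputable def LD (k : ℕ) (x y : E n) : ℝ :=
  (Real.log ‖x - y‖ + Real.log ‖x - dl k (-2) y‖) / 2 - Real.log (1 + ‖x‖) - Real.log (1 + ‖y‖)

theorem LD_meas : Measurable (Function.uncurry (LD k : E n → E n → ℝ)) := by
  have := (dl_cont (n := n) (k := k) (-2)).measurable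
  unfold Function.uncurry LD
  fun_prop

theorem LD_refl (x y : E n) : LD k x (dl k (-2) y) = LD k x y := by
  rw [LD, LD, dl_dl (by norm_num), norm_refl, add_comm]

theorem Wk.wt_refl (h : Wk k e) (a c : ℝ) (y : E n) : wt e a c (dl k (-2) y) = wt e a c y := by
  rw [wt, wt, norm_refl, h.dl_inv]

theorem Wk.ker (h : Wk k e) (hn : 1 ≤ n) (hk : k ≤ n) (ha : 0 ≤ a) (hc : 0 ≤ c) {b : ℝ}
    (hb : 0 ≤ b) (hab : a + b < n) (hs : b / 2 ≤ a + c) (hac : (n : ℝ) - k < a + c) :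
    ∃ A, ∀ x, Integrable (fun y => wt e a (c + b) y * Real.exp (-b * LD k x y)) ∧
      ∫ y, wt e a (c + b) y * Real.exp (-b * LD k x y) ≤ A := by
  obtain ⟨K, hK0, hK⟩ := sl_int hk hac
  obtain ⟨C, hC, hpt⟩ := h.ker_pt ha hc hb hs K hK0
  have i0 := h.wt_int hn hk ha (by linarith) hc hac
  have i1 : Integrable (kb b : E n → ℝ) := kb_int hn (by linarith)
  have i2 : Integrable (kb (a + b) : E n → ℝ) := kb_int hn hab
  refine ⟨2 * (C * ((∫ y, wt e a c y) + ((∫ y : E n, kb b y) + ((∫ y : E n, kb (a + b) y) +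
    ∫ y : E n, kb (a + b) y)) + ∫ y : E n, sl k K (a + c) y)), fun x => ?_⟩
  let F : E n → ℝ := fun y => C * (wt e a c y + (kb b (x - y) + (kb (a + b) y +
    kb (a + b) (x - y))) + sl k K (a + c) (y - pj k x))
  have i3 : Integrable (fun y => kb (a + b) y + kb (a + b) (x - y)) := i2.add (i2.comp_sub_left x)
  have i4 : Integrable (fun y => kb b (x - y) + (kb (a + b) y + kb (a + b) (x - y))) :=
    (i1.comp_sub_left x).add i3
  have i5 : Integrable (fun y => wt e a c y +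
    (kb b (x - y) + (kb (a + b) y + kb (a + b) (x - y)))) := i0.add i4
  have i6 : Integrable F := (i5.add (hK.comp_sub_right (pj k x))).const_mul C
  have mF : Measurable F := by
    have := h.wt_meas a c
    have := kb_meas (n := n) b
    have := kb_meas (n := n) (a + b)
    have := sl_meas (n := n) (k := k) K (a + c)
    fun_prop
  have F0 : ∀ y, 0 ≤ F y := fun y => by
    have := h.wt_nonneg a c y
    have := kb_nonneg b (x - y)
    have := kb_nonneg (a + b) y
    have := kb_nonneg (a + b) (x - y)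
    have := sl_nonneg (k := k) K (a + c) (y - pj k x)
    positivity
  have i7 := dl_int hk (c := -2) (by norm_num) mF i6
  have key : ∀ y, y ≠ 0 → x - y ≠ 0 → ‖x - y‖ ≤ ‖x - dl k (-2) y‖ →
      wt e a (c + b) y * Real.exp (-b * LD k x y) ≤ F y := fun y hy hz hle => by
    have hr := norm_pos_iff.2 hz
    refine le_trans (le_of_eq ?_) (hpt x y _ hy hz hle ?_)
    · rw [wt, wt, Real.rpow_def_of_pos hr, Real.rpow_def_of_pos (hr.trans_le hle),
        Real.rpow_def_of_pos (x := 1 + ‖y‖) (by positivity),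
        Real.rpow_def_of_pos (x := 1 + ‖y‖) (by positivity),
        Real.rpow_def_of_pos (x := 1 + ‖x‖) (by positivity), mul_assoc, mul_assoc _ (Real.exp _)]
      simp only [← Real.exp_add]
      congr 2
      rw [LD]; ring
    · have h1 := norm_sub_le (x - dl k (-2) y) (dl k (-2) x - dl k (-2) y)
      have e1 : x - dl k (-2) x = (2 : ℝ) • pj k x := by rw [dl_apply]; module
      rw [sub_sub_sub_cancel_right, ← map_sub, norm_refl, e1, norm_smul, Real.norm_two] at h1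
      linarith
  have hle : ∀ᵐ y : E n, wt e a (c + b) y * Real.exp (-b * LD k x y) ≤ F y + F (dl k (-2) y) := by
    filter_upwards [ae_ne hn 0, ae_ne hn x, ae_ne hn (dl k (-2) x)] with y h1 h2 h3
    rcases le_total ‖x - y‖ ‖x - dl k (-2) y‖ with h4 | h4
    · exact (key y h1 (sub_ne_zero.2 h2.symm) h4).trans (le_add_of_nonneg_right (F0 _))
    · rw [← LD_refl, ← h.wt_refl]
      refine (key _ ?_ ?_ ?_).trans (le_add_of_nonneg_left (F0 _))
      · rwa [← norm_ne_zero_iff, norm_refl, norm_ne_zero_iff]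
      · rw [← norm_ne_zero_iff, norm_sub_refl, norm_ne_zero_iff]; exact sub_ne_zero.2 h3.symm
      · rwa [dl_dl (by norm_num)]
  have i8 : Integrable fun y => wt e a (c + b) y * Real.exp (-b * LD k x y) :=
    (i6.add i7).mono' (Measurable.aestronglyMeasurable
      ((h.wt_meas _ _).mul ((LD_meas.of_uncurry_left.const_mul _).exp))) (hle.mono fun y hy => by
        rwa [Real.norm_of_nonneg (mul_nonneg (h.wt_nonneg _ _ _) (Real.exp_pos _).le)])
  refine ⟨i8, (integral_mono_ae i8 (i6.add i7) hle).trans (le_of_eq ?_)⟩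
  have e1 := integral_add i6 i7
  simp only [Pi.add_apply] at e1 ⊢
  rw [e1, dl_integral hk (by norm_num) mF, integral_const_mul,
    integral_add i5 (hK.comp_sub_right (pj k x)), integral_add i0 i4,
    integral_add (i1.comp_sub_left x) i3, integral_add i2 (i2.comp_sub_left x),
    integral_sub_left_eq_self (kb b) volume x, integral_sub_left_eq_self (kb (a + b)) volume x,
    integral_sub_right_eq_self (sl k K (a + c))]
  norm_num
  ring

end Pool.Agent.Lib.MP_d59d86_an
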