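import Pool.Agent.Lib.MP_d59d86_an.Dg.Ex

/-! Preparations for the anisotropic Pohozaev inequality. -/

namespace Pool.Agent.Lib.MP_d59d86_an

open MeasureTheory Filter Topology Set

variable {n k : ℕ} {e : E n → ℝ} {a c : ℝ}

theorem bdd_of_asymp {f : E n → ℝ} (hf : Continuous f) {c C : ℝ} (hc : 0 ≤ c)
    (h : Tendsto (fun x => f x + c * Real.log ‖x‖) (cocompact (E n)) (𝓝 C)) :
    ∃ B, ∀ x, |f x + c * Real.log (1 + ‖x‖)| ≤ B := by
  have hnorm : Tendsto (fun x : E n => ‖x‖) (cocompact (E n)) atTop :=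
    tendsto_norm_cocompact_atTop (E := E n)
  have hev : ∀ᶠ x in cocompact (E n), |f x + c * Real.log (1 + ‖x‖)| ≤ |C| + 1 + c := by
    filter_upwards [Metric.tendsto_nhds.1 h 1 one_pos, hnorm.eventually_ge_atTop 1] with x h1 h2
    have h3 : Real.log ‖x‖ ≤ Real.log (1 + ‖x‖) := Real.log_le_log (by linarith) (by linarith)
    have h4 : Real.log (1 + ‖x‖) ≤ Real.log 2 + Real.log ‖x‖ := by
      rw [← Real.log_mul (by norm_num) (by linarith)]
      exact Real.log_le_log (by linarith) (by linarith)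
    have h5 := Real.log_le_sub_one_of_pos (show (0 : ℝ) < 2 by norm_num)
    rw [Real.dist_eq, abs_lt] at h1
    rw [abs_le]
    constructor <;> nlinarith [le_abs_self C, neg_abs_le C]
  obtain ⟨S, hS, hSc⟩ := mem_cocompact.1 hev
  have hc' : Continuous fun x => f x + c * Real.log (1 + ‖x‖) :=
    hf.add (continuous_const.mul (Continuous.log (by fun_prop) fun x => by positivity))
  obtain ⟨B, hB⟩ := hS.exists_bound_of_continuousOn hc'.continuousOn
  refine ⟨max B (|C| + 1 + c), fun x => ?_⟩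
  by_cases hx : x ∈ S
  · exact (hB x hx).trans (le_max_left _ _)
  · exact (hSc hx).trans (le_max_right _ _)

theorem Wk.lt_of_int (h : Wk k e) (hk : k < n) (ha : 0 ≤ a) (hc : 0 ≤ c)
    (hi : Integrable (wt e a c)) : (n : ℝ) - k < a + c := by
  by_contra hcon
  rw [not_lt, ← Nat.cast_sub hk.le] at hcon
  let x0 : E n := EuclideanSpace.single ⟨k, hk⟩ 1
  have hx0 : pj k x0 = x0 := by
    ext i
    by_cases hi : i.val < k
    · have : i ≠ ⟨k, hk⟩ := fun h => by rw [h] at hi; exact lt_irrefl _ hi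
      simp [pj_apply, hi, x0, this]
    · simp [pj_apply, hi]
  have hn0 : ‖x0‖ = 1 := by simp [x0]
  set S := Metric.closedBall x0 (1 / 2) with hS
  have iS : IntegrableOn e S := h.cont.continuousOn.integrableOn_compact (isCompact_closedBall _ _)
  have hpos : 0 < ∫ x in S, e x := by
    rw [setIntegral_pos_iff_support_of_nonneg_ae (Eventually.of_forall fun x => (h.pos x).le) iS,
      Function.support_eq_univ fun x => (h.pos x).ne', univ_inter]
    exact Metric.measure_closedBall_pos _ _ (by norm_num)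
  let F : ℕ → E n → ℝ := fun j => {y : E n | ((j : ℝ) + 1) / 2 ≤ ‖y‖}.indicator (wt e a c)
  have mS : ∀ j : ℕ, MeasurableSet {y : E n | ((j : ℝ) + 1) / 2 ≤ ‖y‖} := fun j =>
    measurableSet_le measurable_const measurable_norm
  have mF : ∀ j, Measurable (F j) := fun j => (h.wt_meas a c).indicator (mS j)
  have F0 : ∀ j y, 0 ≤ F j y := fun j y => indicator_nonneg (fun y _ => h.wt_nonneg a c y) y
  have hlim : Tendsto (fun j => ∫ y, F j y) atTop (𝓝 (∫ _ : E n, (0 : ℝ))) := by
    refine tendsto_integral_of_dominated_convergence _ (fun j => (mF j).aestronglyMeasurable) hi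
      (fun j => Eventually.of_forall fun y => ?_) (Eventually.of_forall fun y => ?_)
    · rw [Real.norm_of_nonneg (F0 j y)]
      exact indicator_le_self' (fun y _ => h.wt_nonneg a c y) y
    · refine tendsto_const_nhds.congr' ?_
      filter_upwards [tendsto_natCast_atTop_atTop.eventually_ge_atTop (2 * ‖y‖)] with j hj
      exact (indicator_of_notMem (by simp only [mem_ofPred_eq, not_le]; linarith) _).symm
  rw [integral_zero] at hlim
  obtain ⟨j, hj⟩ := (hlim.eventually_lt_const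
    (show 0 < 3 ^ (-(a + c)) * ∫ x in S, e x by positivity)).exists
  set t : ℝ := 1 + j with ht
  have ht1 : 1 ≤ t := by rw [ht]; linarith [(Nat.cast_nonneg j : (0 : ℝ) ≤ j)]
  have e1 := dl_integral hk.le (c := j) (by linarith) (mF j)
  have i1 := dl_int hk.le (c := j) (by linarith) (mF j) (hi.indicator (mS j))
  have h1 : ∫ x in S, (3 * t) ^ (-(a + c)) * e x ≤ ∫ x, F j (dl k j x) := by
    refine (setIntegral_mono_on (iS.const_mul _) i1.integrableOn Metric.isClosed_closedBall.measurableSet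
      fun x hx => ?_).trans (setIntegral_le_integral i1 (Eventually.of_forall fun x => F0 j _))
    have h2 : ‖x - x0‖ ≤ 1 / 2 := mem_closedBall_iff_norm.1 hx
    have h3 : ‖x‖ ≤ 3 / 2 := by linarith [norm_le_insert' x x0]
    have h4 : 1 / 2 ≤ ‖pj k x‖ := by
      have := norm_pj_le (k := k) (x - x0)
      rw [map_sub, hx0] at this
      linarith [norm_le_insert (pj k x) x0]
    have h5 := norm_dl_le (k := k) (Nat.cast_nonneg j) x
    have h6 : t / 2 ≤ ‖dl k j x‖ := by
      have h7 := norm_pj_le (k := k) (dl k j x)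
      have h8 : pj k (dl k j x) = t • pj k x := by
        rw [dl_apply, map_add, map_smul, pj_pj, ht, add_smul, one_smul]
      rw [h8, norm_smul, Real.norm_of_nonneg (show 0 ≤ t by linarith)] at h7
      nlinarith
    have h7 : ‖dl k j x‖ ^ (-a) ≥ (3 * t) ^ (-a) :=
      Real.rpow_le_rpow_of_nonpos (by linarith) (by nlinarith) (by linarith)
    have h8 : (1 + ‖dl k j x‖) ^ (-c) ≥ (3 * t) ^ (-c) :=
      Real.rpow_le_rpow_of_nonpos (by linarith) (by nlinarith) (by linarith)
    have h9 := (h.pos x).le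
    simp only [F]
    rw [indicator_of_mem (by simp only [mem_ofPred_eq]; linarith), wt, h.dl_inv, neg_add,
      Real.rpow_add (by linarith), mul_comm, ← mul_assoc]
    gcongr
  rw [integral_const_mul, e1, ← ht, abs_of_pos (by linarith), Real.mul_rpow (by norm_num)
    (by linarith), ← Real.rpow_natCast, ← Real.rpow_neg (by linarith)] at h1
  have h2 : t ^ (-((n - k : ℕ) : ℝ)) ≤ t ^ (-(a + c)) :=
    Real.rpow_le_rpow_of_exponent_le ht1 (by linarith)
  have h3 : 0 < t ^ (-(a + c)) := by positivity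
  have h4 : 0 ≤ ∫ y, F j y := integral_nonneg (F0 j)
  nlinarith [mul_le_mul_of_nonneg_right h2 h4, mul_lt_mul_of_pos_left hj h3]

theorem Wk.ratio (h : Wk k e) (hn : 2 ≤ n) (hk : k < n) (ha : 0 ≤ a) (han : a < n) (hc : 0 ≤ c)
    (hac : (n : ℝ) - k < a + c) : ∃ A, ∀ x : E n,
      Integrable (fun y => ‖x‖ / ‖x - y‖ * wt e a c y) ∧ ∫ y, ‖x‖ / ‖x - y‖ * wt e a c y ≤ A := by
  obtain ⟨K, -, hK⟩ := sl_int hk.le hac
  obtain ⟨C0, hC0, h0⟩ := h.bdd
  obtain ⟨C, hC, h1⟩ := h.decay K
  have hm : (1 : ℝ) ≤ (n : ℝ) - k := by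
    have : ((k + 1 : ℕ) : ℝ) ≤ n := by exact_mod_cast hk
    push_cast at this; linarith
  have i0 := h.wt_int (by omega) hk.le ha han hc hac
  have i1 : Integrable (kb 1 : E n → ℝ) := kb_int (by omega) (by exact_mod_cast hn)
  have i2 : Integrable (kb a : E n → ℝ) := kb_int (by omega) han
  refine ⟨2 * ((∫ y, wt e a c y) + C0 * ((∫ y : E n, kb 1 y) + ∫ y : E n, kb a y) +
    C * 2 ^ (a + c) * ∫ y : E n, sl k K (a + c) y), fun x => ?_⟩
  have i3 : Integrable fun y => kb 1 (x - y) + kb a (x - y) :=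
    (i1.comp_sub_left x).add (i2.comp_sub_left x)
  have i4 : Integrable fun y => wt e a c y + C0 * (kb 1 (x - y) + kb a (x - y)) :=
    i0.add (i3.const_mul _)
  have i5 := (hK.comp_sub_right (pj k x)).const_mul (C * 2 ^ (a + c))
  have i6 : Integrable fun y => 2 * (wt e a c y + C0 * (kb 1 (x - y) + kb a (x - y)) +
      C * 2 ^ (a + c) * sl k K (a + c) (y - pj k x)) := (i4.add i5).const_mul 2
  have hle : ∀ y, ‖x‖ / ‖x - y‖ * wt e a c y ≤ 2 * (wt e a c y +
      C0 * (kb 1 (x - y) + kb a (x - y)) + C * 2 ^ (a + c) * sl k K (a + c) (y - pj k x)) := by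
    intro y
    have p1 := h.wt_nonneg a c y
    have p2 := mul_nonneg hC0 (kb_nonneg 1 (x - y))
    have p3 := mul_nonneg hC0 (kb_nonneg a (x - y))
    have p4 : 0 ≤ C * 2 ^ (a + c) * sl k K (a + c) (y - pj k x) :=
      mul_nonneg (by positivity) (sl_nonneg _ _ _)
    rcases (norm_nonneg (x - y)).eq_or_lt with hr | hr
    · rw [← hr, div_zero, zero_mul]; linarith
    set r := ‖x - y‖ with hr'
    rcases le_or_gt ‖x‖ (2 * r) with c1 | c1
    · have := mul_le_mul_of_nonneg_right ((div_le_iff₀ hr).2 c1) p1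
      linarith
    have h2 : ‖x‖ ≤ r + ‖y‖ := by simpa using norm_add_le (x - y) y
    have h3 : r ≤ ‖y‖ := by linarith
    have hy : 0 < ‖y‖ := by linarith
    have p5 := (h.pos y).le
    have h4 : ‖x‖ / r * wt e a c y ≤ 2 * (e y * (‖y‖ ^ (1 - a) * (1 + ‖y‖) ^ (-c) * r⁻¹)) := by
      refine (mul_le_mul_of_nonneg_right (div_le_div_of_nonneg_right
        (show ‖x‖ ≤ 2 * ‖y‖ by linarith) hr.le) p1).trans (le_of_eq ?_)
      rw [wt, sub_eq_add_neg, Real.rpow_add hy, Real.rpow_one]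
      ring
    refine h4.trans (mul_le_mul_of_nonneg_left ?_ (by norm_num))
    rcases le_or_gt 1 r with c2 | c2
    · have a1 : (1 + ‖y‖) ^ (-c) ≤ ‖y‖ ^ (-c) :=
        Real.rpow_le_rpow_of_nonpos hy (by linarith) (by linarith)
      have a2 : ‖y‖ ^ (1 - a + -c) ≤ r ^ (1 - a + -c) :=
        Real.rpow_le_rpow_of_nonpos hr h3 (by linarith)
      have a3 := slab (k := k) (add_nonneg ha hc) K c2
      have a4 := h1 y
      calc _ ≤ e y * (‖y‖ ^ (1 - a) * ‖y‖ ^ (-c) * r⁻¹) := by gcongr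
        _ ≤ C * (1 + ‖y - pj k y‖) ^ (-K) * (r ^ (1 - a + -c) * r⁻¹) := by
            rw [← Real.rpow_add hy]; gcongr
        _ = C * ((1 + ‖y - pj k y‖) ^ (-K) * r ^ (-(a + c))) := by
            rw [← Real.rpow_neg_one, ← Real.rpow_add hr, mul_assoc]; congr 3; ring
        _ ≤ _ := by linarith [mul_le_mul_of_nonneg_left a3 hC]
    have a4 := h0 y
    rcases le_or_gt 1 a with c3 | c3
    · have a1 := one_add_le_one hc y
      have a2 : ‖y‖ ^ (1 - a) ≤ r ^ (1 - a) := Real.rpow_le_rpow_of_nonpos hr h3 (by linarith)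
      calc _ ≤ C0 * (r ^ (1 - a) * 1 * r⁻¹) := by gcongr
        _ = C0 * kb a (x - y) := by
            rw [kb_of_lt a c2, mul_one, ← Real.rpow_neg_one, ← Real.rpow_add hr]; congr 2; ring
        _ ≤ _ := by linarith
    · have a1 : ‖y‖ ^ (1 - a) ≤ (1 + ‖y‖) ^ (1 - a) :=
        Real.rpow_le_rpow hy.le (by linarith) (by linarith)
      have a2 : (1 + ‖y‖) ^ (1 - a) * (1 + ‖y‖) ^ (-c) ≤ 1 := by
        rw [← Real.rpow_add (by linarith)]
        exact Real.rpow_le_one_of_one_le_of_nonpos (by linarith) (by linarith)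
      calc _ ≤ e y * ((1 + ‖y‖) ^ (1 - a) * (1 + ‖y‖) ^ (-c) * r⁻¹) := by gcongr
        _ ≤ C0 * (1 * r⁻¹) := by gcongr
        _ = C0 * kb 1 (x - y) := by rw [kb_of_lt 1 c2, one_mul, Real.rpow_neg_one]
        _ ≤ _ := by linarith
  have i7 : Integrable fun y => ‖x‖ / ‖x - y‖ * wt e a c y :=
    i6.mono' (Measurable.aestronglyMeasurable (Measurable.mul (by fun_prop) (h.wt_meas a c)))
      (Eventually.of_forall fun y => by
        rw [Real.norm_of_nonneg (mul_nonneg (by positivity) (h.wt_nonneg a c y))]; exact hle y)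
  refine ⟨i7, (integral_mono i7 i6 hle).trans (le_of_eq ?_)⟩
  rw [integral_const_mul, integral_add i4 i5, integral_add i0 (i3.const_mul _), integral_const_mul,
    integral_const_mul, integral_add (i1.comp_sub_left x) (i2.comp_sub_left x),
    integral_sub_left_eq_self (kb 1) volume x, integral_sub_left_eq_self (kb a) volume x,
    integral_sub_right_eq_self (sl k K (a + c))]

theorem int_prod {ρ G : E n → ℝ} {F : E n → E n → ℝ} (hF : Measurable (Function.uncurry F))
    (hm : Measurable ρ) (h0 : ∀ x, 0 ≤ ρ x) (hG : Integrable fun x => ρ x * G x)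
    (h : ∀ x, Integrable (F x) ∧ ∫ y, ‖F x y‖ ≤ G x) :
    Integrable (fun p : E n × E n => ρ p.1 * F p.1 p.2) (volume.prod volume) := by
  have m : AEStronglyMeasurable (fun p : E n × E n => ρ p.1 * F p.1 p.2) (volume.prod volume) :=
    ((hm.comp measurable_fst).mul hF).aestronglyMeasurable
  refine (integrable_prod_iff m).2 ⟨Eventually.of_forall fun x => (h x).1.const_mul (ρ x),
    hG.mono' m.norm.integral_prod_right' (Eventually.of_forall fun x => ?_)⟩
  rw [Real.norm_of_nonneg (integral_nonneg fun y => norm_nonneg _)]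
  simp only [norm_mul, integral_const_mul, Real.norm_of_nonneg (h0 x)]
  exact mul_le_mul_of_nonneg_left (h x).2 (h0 x)

theorem pt_log {s : ℝ} (hs : 0 ≤ s) {x y : E n} (hz : x - y ≠ 0) (h1 : dl k s x - y ≠ 0)
    (h2 : dl k s y - x ≠ 0) :
    Real.log ‖dl k s x - y‖ + Real.log ‖dl k s y - x‖ - 2 * Real.log ‖x - y‖ ≤
      (s + s ^ 2 / 4) * (‖pj k (x - y)‖ ^ 2 / ‖x - y‖ ^ 2) +
        Real.log (1 + (s * (‖pj k (x + y)‖ / (2 * ‖x - y‖))) ^ 2) := by
  have hr := norm_pos_iff.2 hz
  have p1 := norm_pos_iff.2 h1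
  have p2 := norm_pos_iff.2 h2
  have e1 : dl k s x - y = x - y + (s / 2) • pj k (x - y) + (s / 2) • pj k (x + y) := by
    rw [dl_apply, map_sub, map_add]; module
  have e2 : dl k s y - x = -(x - y + (s / 2) • pj k (x - y) - (s / 2) • pj k (x + y)) := by
    rw [dl_apply, map_sub, map_add]; module
  have h3 := parallelogram_law_with_norm ℝ (x - y + (s / 2) • pj k (x - y)) ((s / 2) • pj k (x + y))
  rw [← e1, ← norm_neg (_ - (s / 2) • pj k (x + y)), ← e2, norm_add_pj,
    norm_smul, Real.norm_of_nonneg (by linarith)] at h3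
  set u := (s + s ^ 2 / 4) * (‖pj k (x - y)‖ ^ 2 / ‖x - y‖ ^ 2) with hu
  set v := (s * (‖pj k (x + y)‖ / (2 * ‖x - y‖))) ^ 2 with hv
  have hu0 : 0 ≤ u := by positivity
  have hv0 : 0 ≤ v := by positivity
  have h4 : ‖dl k s x - y‖ * ‖dl k s y - x‖ ≤ ‖x - y‖ ^ 2 * ((1 + u) * (1 + v)) := by
    have e3 : ‖x - y‖ ^ 2 * (1 + u + v) = ‖x - y‖ ^ 2 + (2 * (s / 2) + (s / 2) ^ 2) *
        ‖pj k (x - y)‖ ^ 2 + (s / 2 * ‖pj k (x + y)‖) ^ 2 := by rw [hu, hv]; field_simp; ring
    nlinarith [sq_nonneg (‖dl k s x - y‖ - ‖dl k s y - x‖), mul_nonneg (sq_nonneg ‖x - y‖)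
      (mul_nonneg hu0 hv0)]
  have h5 := Real.log_le_log (mul_pos p1 p2) h4
  rw [Real.log_mul p1.ne' p2.ne', Real.log_mul (by positivity) (by positivity),
    Real.log_mul (by positivity) (by positivity), Real.log_pow] at h5
  have h6 := Real.log_le_sub_one_of_pos (show 0 < 1 + u by positivity)
  push_cast at h5
  linarith

end Pool.Agent.Lib.MP_d59d86_an
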