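import Pool.Agent.Lib.MP_d59d86_an.Dg.Nec1

/-! The anisotropic Pohozaev inequality and the main theorem. -/

namespace Pool.Agent.Lib.MP_d59d86_an

open MeasureTheory Filter Topology Set

variable {n k : ℕ} {e : E n → ℝ} {a : ℝ}

theorem Wk.poho (h : Wk k e) (hn : 2 ≤ n) (hk1 : 1 ≤ k) (hk : k < n) (ha : 0 ≤ a) (han : a < n)
    {β Z M : ℝ} (hβ : 0 < β) (hac : (n : ℝ) - k < a + 2 * β) {ρ : E n → ℝ} (hρ : Dn a ρ)
    (h1 : ∫ y, ρ y = 1) (hM : ∀ y, ρ y ≤ M * wt e a (2 * β) y) (hZ : 0 < Z)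
    (hfix : ∀ x, ρ x = e x * ‖x‖ ^ (-a) * Real.exp (-(2 * β) * lp ρ x) / Z) :
    (n : ℝ) - k < a + β := by
  have hn1 : 1 ≤ n := by omega
  obtain ⟨B, hB⟩ := hρ.log_bound hn1 ha han
  obtain ⟨A, hA⟩ := h.ratio hn hk ha han (by linarith) hac
  have hm := hρ.meas
  have mP := (pj_cont (n := n) (k := k)).measurable
  set μ : Measure (E n × E n) := volume.prod volume with hμ
  have iw : Integrable (fun p : E n × E n => ρ p.1 * ρ p.2) μ := hρ.int.mul_prod hρ.int
  have w0 : ∀ p : E n × E n, 0 ≤ ρ p.1 * ρ p.2 := fun p => mul_nonneg (hρ.nonneg _) (hρ.nonneg _)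
  have iI : ∀ s, 0 ≤ s → Integrable (fun p : E n × E n =>
      ρ p.1 * (Real.log ‖dl k s p.1 - p.2‖ * ρ p.2)) μ := fun s hs => by
    have := (dl_cont (n := n) (k := k) s).measurable
    refine int_prod (F := fun x y => Real.log ‖dl k s x - y‖ * ρ y)
      (G := fun x => B + s + Real.log (1 + ‖x‖)) (by unfold Function.uncurry; fun_prop) hm hρ.nonneg
      (((hρ.int.mul_const (B + s)).add hρ.intl).congr
        (Eventually.of_forall fun x => by simp only [Pi.add_apply]; ring))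
      fun x => ⟨(hB _).1, (hB _).2.trans ?_⟩
    have h2 := Real.log_le_log (by positivity) (show 1 + ‖dl k s x‖ ≤ (1 + s) * (1 + ‖x‖) by
      nlinarith [norm_dl_le (k := k) hs x])
    have h3 := Real.log_le_sub_one_of_pos (show 0 < 1 + s by positivity)
    rw [Real.log_mul (by positivity) (by positivity)] at h2
    rw [h1]; linarith
  have eI : ∀ s, 0 ≤ s → ∫ p, ρ p.1 * (Real.log ‖dl k s p.1 - p.2‖ * ρ p.2) ∂μ =
      ∫ x, ρ x * lp ρ (dl k s x) := fun s hs => by
    rw [integral_prod _ (iI s hs)]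
    simp only [integral_const_mul, lp]
  have iU : ∀ s, 0 ≤ s → Integrable fun x => ρ x * lp ρ (dl k s x) := fun s hs => by
    simpa only [integral_const_mul, lp] using (iI s hs).integral_prod_left
  have d0 : ∀ x : E n, dl k 0 x = x := fun x => by simp [dl_apply]
  have iI0 := iI 0 le_rfl
  have eI0 := eI 0 le_rfl
  have iU0 := iU 0 le_rfl
  simp only [d0] at iI0 eI0 iU0
  have stepA : ∀ s, 0 ≤ s → ((n - k : ℕ) - a) * Real.log (1 + s) ≤
      2 * β * ((∫ x, ρ x * lp ρ (dl k s x)) - ∫ x, ρ x * lp ρ x) := fun s hs => by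
    have i1 := (dl_int hk.le (c := s) (by linarith) hm hρ.int).const_mul ((1 + s) ^ (n - k))
    have i2 : Integrable fun x => ρ x * lp ρ (dl k s x) - ρ x * lp ρ x := (iU s hs).sub iU0
    have i3 := hρ.int.const_mul (1 + ((n - k : ℕ) - a) * Real.log (1 + s))
    have h2 := integral_mono_ae (i3.sub (i2.const_mul (2 * β))) i1 (by
      filter_upwards [ae_ne hn1 0] with x hx
      have hx0 := norm_pos_iff.2 hx
      have h3 : ((1 + s) * ‖x‖) ^ (-a) ≤ ‖dl k s x‖ ^ (-a) := Real.rpow_le_rpow_of_nonpos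
        (hx0.trans_le (norm_le_dl hs x)) (norm_dl_le hs x) (by linarith)
      have h4 := Real.add_one_le_exp (((n - k : ℕ) - a) * Real.log (1 + s) -
        2 * β * (lp ρ (dl k s x) - lp ρ x))
      have h5 := (h.pos x).le
      calc _ = ρ x * (((n - k : ℕ) - a) * Real.log (1 + s) -
            2 * β * (lp ρ (dl k s x) - lp ρ x) + 1) := by simp only [Pi.sub_apply]; ring
        _ ≤ _ := mul_le_mul_of_nonneg_left h4 (hρ.nonneg x)
        _ = (1 + s) ^ (n - k) * (e x * ((1 + s) * ‖x‖) ^ (-a) *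
            Real.exp (-(2 * β) * lp ρ (dl k s x)) / Z) := by
          rw [hfix x, Real.mul_rpow (by linarith) hx0.le, ← Real.rpow_natCast,
            Real.rpow_def_of_pos (x := 1 + s) (by linarith),
            Real.rpow_def_of_pos (x := 1 + s) (by linarith),
            show ((n - k : ℕ) - a) * Real.log (1 + s) - 2 * β * (lp ρ (dl k s x) - lp ρ x) =
              Real.log (1 + s) * (n - k : ℕ) + Real.log (1 + s) * -a +
              -(2 * β) * lp ρ (dl k s x) - -(2 * β) * lp ρ x by ring,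
            Real.exp_sub, Real.exp_add, Real.exp_add]
          field_simp
        _ ≤ _ := by rw [hfix (dl k s x), h.dl_inv]; gcongr)
    have e1 := integral_sub i3 (i2.const_mul (2 * β))
    simp only [Pi.sub_apply] at h2 e1
    rw [e1, integral_const_mul, integral_const_mul, integral_const_mul, integral_sub (iU s hs) iU0,
      dl_integral hk.le (by linarith) hm, h1, abs_of_pos (by linarith),
      mul_one, mul_one, mul_inv_cancel₀ (by positivity)] at h2
    linarith
  let Bf : E n × E n → ℝ := fun p => ‖pj k (p.1 - p.2)‖ ^ 2 / ‖p.1 - p.2‖ ^ 2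
  let r : E n × E n → ℝ := fun p => ‖pj k (p.1 + p.2)‖ / (2 * ‖p.1 - p.2‖)
  have r0 : ∀ p, 0 ≤ r p := fun p => by positivity
  have B1 : ∀ p, Bf p ≤ 1 := fun p => div_le_one_of_le₀
    (pow_le_pow_left₀ (norm_nonneg _) (norm_pj_le _) 2) (by positivity)
  have mB : Measurable Bf := by fun_prop
  have mr : Measurable r := by fun_prop
  have mw : Measurable fun p : E n × E n => ρ p.1 * ρ p.2 := by fun_prop
  have iB : Integrable (fun p => Bf p * (ρ p.1 * ρ p.2)) μ :=
    iw.mono' (mB.mul mw).aestronglyMeasurable (Eventually.of_forall fun p => by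
      rw [Real.norm_of_nonneg (mul_nonneg (by positivity) (w0 p))]
      exact mul_le_of_le_one_left (w0 p) (B1 p))
  have hM0 : 0 ≤ |M| := abs_nonneg M
  have iR : Integrable (fun p : E n × E n => ρ p.1 * (‖p.1‖ / ‖p.1 - p.2‖ * ρ p.2)) μ := by
    refine int_prod (F := fun x y => ‖x‖ / ‖x - y‖ * ρ y) (G := fun _ => |M| * A)
      (by unfold Function.uncurry; fun_prop) hm hρ.nonneg (hρ.int.mul_const _) fun x => ?_
    have h2 : ∀ y, ‖‖x‖ / ‖x - y‖ * ρ y‖ ≤ |M| * (‖x‖ / ‖x - y‖ * wt e a (2 * β) y) := fun y => by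
      rw [Real.norm_of_nonneg (mul_nonneg (by positivity) (hρ.nonneg y)), mul_left_comm]
      exact mul_le_mul_of_nonneg_left ((hM y).trans (mul_le_mul_of_nonneg_right (le_abs_self M)
        (h.wt_nonneg _ _ _))) (by positivity)
    have i1 : Integrable fun y => ‖x‖ / ‖x - y‖ * ρ y := ((hA x).1.const_mul _).mono'
      (Measurable.aestronglyMeasurable (by fun_prop)) (Eventually.of_forall h2)
    refine ⟨i1, (integral_mono i1.norm ((hA x).1.const_mul _) h2).trans ?_⟩
    rw [integral_const_mul]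
    exact mul_le_mul_of_nonneg_left (hA x).2 hM0
  let g : ℝ → E n × E n → ℝ := fun s p => Real.log (1 + (s * r p) ^ 2) / s * (ρ p.1 * ρ p.2)
  have mg : ∀ s, AEStronglyMeasurable (g s) μ := fun s =>
    Measurable.aestronglyMeasurable (by fun_prop)
  have g0 : ∀ s, 0 < s → ∀ p, 0 ≤ g s p := fun s hs p =>
    mul_nonneg (div_nonneg (Real.log_nonneg (by nlinarith [sq_nonneg (s * r p)])) hs.le) (w0 p)
  have gb : ∀ s, 0 < s → ∀ p, ‖g s p‖ ≤ ρ p.1 * (‖p.1‖ / ‖p.1 - p.2‖ * ρ p.2) +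
      ρ p.2 * (‖p.2‖ / ‖p.2 - p.1‖ * ρ p.1) := fun s hs p => by
    have h2 : 0 ≤ s * r p := mul_nonneg hs.le (r0 p)
    have h3 := Real.log_le_log (by positivity) (show 1 + (s * r p) ^ 2 ≤ (1 + s * r p) ^ 2 by
      nlinarith)
    have h4 := Real.log_le_sub_one_of_pos (show 0 < 1 + s * r p by positivity)
    rw [Real.log_pow] at h3
    have h5 : Real.log (1 + (s * r p) ^ 2) / s ≤ 2 * r p := by
      rw [div_le_iff₀ hs]; push_cast at h3; linarith
    have h6 : 2 * r p ≤ ‖p.1‖ / ‖p.1 - p.2‖ + ‖p.2‖ / ‖p.1 - p.2‖ := by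
      rw [← add_div, show 2 * r p = ‖pj k (p.1 + p.2)‖ / ‖p.1 - p.2‖ by simp only [r]; ring]
      exact div_le_div_of_nonneg_right ((norm_pj_le _).trans (norm_add_le _ _)) (norm_nonneg _)
    rw [Real.norm_of_nonneg (g0 s hs p), norm_sub_rev p.2]
    exact (mul_le_mul_of_nonneg_right (h5.trans h6) (w0 p)).trans (le_of_eq (by ring))
  have iR2 := iR.add iR.swap
  have stepB : ∀ s, 0 < s → 2 * ((∫ x, ρ x * lp ρ (dl k s x)) - ∫ x, ρ x * lp ρ x) ≤
      (s + s ^ 2 / 4) * ∫ p, Bf p * (ρ p.1 * ρ p.2) ∂μ + s * ∫ p, g s p ∂μ := fun s hs => by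
    have ig : Integrable (g s) μ := iR2.mono' (mg s) (Eventually.of_forall (gb s hs))
    have i1 := iI s hs.le
    have i2 : Integrable (fun p : E n × E n =>
      ρ p.2 * (Real.log ‖dl k s p.2 - p.1‖ * ρ p.1)) μ := i1.swap
    have e2 : ∫ p : E n × E n, ρ p.2 * (Real.log ‖dl k s p.2 - p.1‖ * ρ p.1) ∂μ = _ :=
      (integral_prod_swap fun p : E n × E n =>
        ρ p.1 * (Real.log ‖dl k s p.1 - p.2‖ * ρ p.2)).trans (eI s hs.le)
    have i3 : Integrable (fun p : E n × E n => ρ p.1 * (Real.log ‖dl k s p.1 - p.2‖ * ρ p.2) +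
      ρ p.2 * (Real.log ‖dl k s p.2 - p.1‖ * ρ p.1)) μ := i1.add i2
    have mD := (dl_cont (n := n) (k := k) s).measurable
    have hae : ∀ᵐ p : E n × E n ∂μ, p.1 - p.2 ≠ 0 ∧ dl k s p.1 - p.2 ≠ 0 ∧ dl k s p.2 - p.1 ≠ 0 := by
      refine (Measure.ae_prod_iff_ae_ae ?_).2 (Eventually.of_forall fun x => ?_)
      · refine MeasurableSet.inter (s₁ := {p : E n × E n | p.1 - p.2 ≠ 0})
          (s₂ := {p | dl k s p.1 - p.2 ≠ 0} ∩ {p | dl k s p.2 - p.1 ≠ 0})
          ?_ (MeasurableSet.inter ?_ ?_) <;>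
          exact (measurableSet_eq_fun (by fun_prop) measurable_const).compl
      · filter_upwards [ae_ne hn1 x, ae_ne hn1 (dl k s x), ae_ne hn1 (dl k (-s / (1 + s)) x)]
          with y h2 h3 h4
        refine ⟨sub_ne_zero.2 h2.symm, sub_ne_zero.2 h3.symm, sub_ne_zero.2 fun h5 => h4 ?_⟩
        rw [← h5, dl_dl (by field_simp; ring)]
    have h2 := integral_mono_ae (i3.sub (iI0.const_mul 2))
      ((iB.const_mul (s + s ^ 2 / 4)).add (ig.const_mul s)) (hae.mono fun p hp => by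
        have h3 := mul_le_mul_of_nonneg_right (pt_log hs.le hp.1 hp.2.1 hp.2.2) (w0 p)
        simp only [Pi.sub_apply, Pi.add_apply, g]
        rw [← mul_assoc s, mul_div_cancel₀ _ hs.ne']
        linarith)
    have e3 := integral_sub i3 (iI0.const_mul 2)
    have e4 := integral_add (iB.const_mul (s + s ^ 2 / 4)) (ig.const_mul s)
    simp only [Pi.sub_apply, Pi.add_apply] at h2 e3 e4
    rw [e3, e4, integral_add i1 i2, e2, eI s hs.le, integral_const_mul, integral_const_mul,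
      integral_const_mul, eI0] at h2
    linarith
  have hB1 : ∫ p, Bf p * (ρ p.1 * ρ p.2) ∂μ < 1 := by
    have e1 : ∫ p : E n × E n, ρ p.1 * ρ p.2 ∂μ = 1 := by rw [integral_prod_mul, h1, mul_one]
    rw [← e1, ← sub_pos, ← integral_sub iw iB]
    refine (integral_pos_iff_support_of_nonneg (fun p => sub_nonneg.2
      (mul_le_of_le_one_left (w0 p) (B1 p))) (iw.sub iB)).2 ?_
    let i0 : Fin n := ⟨0, by omega⟩
    have hO : IsOpen ({p : E n × E n | p.1 ≠ 0} ∩ {p | p.2 ≠ 0} ∩ {p | p.1 i0 ≠ p.2 i0}) :=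
      ((isOpen_ne_fun (by fun_prop) (by fun_prop)).inter
        (isOpen_ne_fun (by fun_prop) (by fun_prop))).inter
        (isOpen_ne_fun (by fun_prop) (by fun_prop))
    refine (hO.measure_pos μ ⟨(EuclideanSpace.single i0 1, EuclideanSpace.single i0 2),
      ⟨by simp, by simp⟩, by simp⟩).trans_le (measure_mono ?_)
    rintro p ⟨⟨h2, h3⟩, h4⟩
    have hp : ∀ x : E n, x ≠ 0 → 0 < ρ x := fun x hx => by
      have := h.pos x
      have := norm_pos_iff.2 hx
      rw [hfix]; positivity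
    have h5 : 0 < ‖p.1 - p.2 - pj k (p.1 - p.2)‖ := norm_pos_iff.2 fun h6 => h4 (by
      have := congrArg (fun z : E n => z i0) h6
      simpa [pj_apply, show i0.val < k from hk1, sub_eq_zero] using this)
    have h6 := norm_sub_pj (k := k) (p.1 - p.2)
    have h7 : Bf p < 1 := (div_lt_one (by nlinarith [sq_nonneg ‖pj k (p.1 - p.2)‖])).2
      (by nlinarith)
    exact (sub_pos.2 (mul_lt_of_lt_one_left (mul_pos (hp _ h2) (hp _ h3)) h7)).ne'
  let t : ℕ → ℝ := fun j => 1 / ((j : ℝ) + 1)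
  have ht : ∀ j, 0 < t j := fun j => Nat.one_div_pos_of_nat
  have tlim : Tendsto t atTop (𝓝 0) := tendsto_one_div_add_atTop_nhds_zero_nat
  have glim : Tendsto (fun j => ∫ p, g (t j) p ∂μ) atTop (𝓝 (∫ _, (0 : ℝ) ∂μ)) := by
    refine tendsto_integral_of_dominated_convergence _ (fun j => mg _) iR2
      (fun j => Eventually.of_forall (gb _ (ht j))) (Eventually.of_forall fun p => ?_)
    have := tlim.mul_const (r p ^ 2 * (ρ p.1 * ρ p.2))
    rw [zero_mul] at this
    refine squeeze_zero (fun j => g0 _ (ht j) p) (fun j => ?_) this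
    rw [← mul_assoc]
    refine mul_le_mul_of_nonneg_right ((div_le_iff₀ (ht j)).2 ?_) (w0 p)
    linarith [Real.log_le_sub_one_of_pos (show 0 < 1 + (t j * r p) ^ 2 by positivity)]
  rw [integral_zero] at glim
  set b := ∫ p, Bf p * (ρ p.1 * ρ p.2) ∂μ
  rw [← Nat.cast_sub hk.le]
  rcases le_or_gt (((n - k : ℕ) : ℝ) - a) 0 with c1 | c1
  · linarith
  have l1 := (((tlim.div_const 4).const_add 1).mul_const b).add glim |>.const_mul β |>.mul
    (tlim.const_add 1)
  have h2 : ((n - k : ℕ) : ℝ) - a ≤ _ := ge_of_tendsto' l1 fun j => by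
    have h3 := stepA _ (ht j).le
    have h4 := mul_le_mul_of_nonneg_left (stepB _ (ht j)) hβ.le
    have h5 := Real.one_sub_inv_le_log_of_pos (show 0 < 1 + t j by linarith [ht j])
    have h6 := mul_le_mul_of_nonneg_left h5 c1.le
    have h7 := ht j
    have e1 : 1 - (1 + t j)⁻¹ = t j / (1 + t j) := by field_simp; ring
    rw [← div_le_iff₀ (by linarith)]
    refine le_of_mul_le_mul_left ?_ h7
    rw [e1] at h6
    calc _ = (((n - k : ℕ) : ℝ) - a) * (t j / (1 + t j)) := by ring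
      _ ≤ _ := by linarith
  nlinarith

theorem main_deg {m : ℕ} (hm : 1 ≤ m) (hk1 : 1 ≤ k) (hk : k < m + 1) (α Λ : ℝ) (hα : -1 < α)
    (hα0 : α ≤ 0) (hΛ : 0 < Λ) (hΛ1 : Λ < lambdaOne (m + 1) * (1 + α))
    (q : MvPolynomial (Fin k) ℝ) (hdeg : q.totalDegree ≤ m)
    (hq : Tendsto (pev q) (cocompact (E k)) atBot) (p : MvPolynomial (Fin (m + 1)) ℝ)
    (hp : p = MvPolynomial.rename (Fin.castLE hk.le) q) :
    (∃ (u : E (m + 1) → ℝ) (C C' : ℝ), Continuous u ∧ IsWeakSol (m + 1) α u ∧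
      ∫ x, rhs (m + 1) α u x = Λ ∧ (∀ x, u x = vpart (m + 1) α u x + pev p x + C') ∧
      Tendsto (fun x => u x - pev p x + 2 * Λ / lambdaOne (m + 1) * Real.log ‖x‖)
        (cocompact (E (m + 1))) (𝓝 C)) ↔
      lambdaOne (m + 1) * (1 + α - k / (m + 1 : ℕ)) < Λ := by
  have hL : 0 < lambdaOne (m + 1) := by rw [lambdaOne_eq]; linarith [gam_pos m]
  have hn : 1 ≤ m + 1 := by omega
  have hw := wk_poly hn hk.le q hq
  rw [← hp] at hw
  set D : ℝ := ((m + 1 : ℕ) : ℝ) with hD
  have hD0 : 0 < D := by positivity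
  set lam := Λ / lambdaOne (m + 1) with hlam
  have hlam0 : 0 < lam := div_pos hΛ hL
  have hlam1 : lam < 1 + α := by rw [hlam, div_lt_iff₀ hL]; linarith
  have ha : 0 ≤ -(D * α) := by nlinarith
  have han : -(D * α) < D := by nlinarith
  have hiff : lambdaOne (m + 1) * (1 + α - k / D) < Λ ↔ D - k < -(D * α) + D * lam := by
    rw [mul_comm, ← lt_div_iff₀ hL, ← hlam, sub_lt_comm, lt_div_iff₀ hD0]
    constructor <;> intro h <;> linarith
  rw [hiff]
  constructor
  · rintro ⟨u, C, C', hu, hs, hint, hrep, has⟩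
    have hpc := pev_continuous p
    obtain ⟨B, hB⟩ := bdd_of_asymp (f := fun x => u x - pev p x) (by fun_prop)
      (by positivity) has
    set ρ := fun x => rhs (m + 1) α u x / Λ with hρ'
    have e1 : ∀ x, ρ x = Real.exp (D * (u x - pev p x + 2 * Λ / lambdaOne (m + 1) *
        Real.log (1 + ‖x‖))) / Λ * wt (fun y => Real.exp (D * pev p y)) (-(D * α))
        (2 * (D * lam)) x := fun x => by
      simp only [hρ', rhs, wt, neg_neg, ← hD]
      rw [Real.rpow_def_of_pos (x := 1 + ‖x‖) (by positivity), show D * u x =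
        D * (u x - pev p x + 2 * Λ / lambdaOne (m + 1) * Real.log (1 + ‖x‖)) + D * pev p x +
        Real.log (1 + ‖x‖) * -(2 * (D * lam)) by rw [hlam]; ring, Real.exp_add, Real.exp_add]
      ring
    have hi : Integrable ρ := hs.finite.div_const Λ
    have hρm : Measurable ρ := by simp only [hρ', rhs]; fun_prop
    have hM : ∀ x, ρ x ≤ Real.exp (D * B) / Λ * wt (fun y => Real.exp (D * pev p y)) (-(D * α))
        (2 * (D * lam)) x := fun x => by
      have a1 := (abs_le.1 (hB x)).2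
      have a2 := hw.wt_nonneg (-(D * α)) (2 * (D * lam)) x
      rw [e1]; gcongr
    have hac := hw.lt_of_int hk ha (c := 2 * (D * lam)) (by positivity)
      ((hi.const_mul (Λ * Real.exp (D * B))).mono' (hw.wt_meas _ _).aestronglyMeasurable
        (Eventually.of_forall fun x => by
          have a2 := hw.wt_nonneg (-(D * α)) (2 * (D * lam)) x
          rw [Real.norm_of_nonneg a2, e1, ← mul_assoc (Λ * _)]
          refine le_mul_of_one_le_left a2 ?_
          rw [mul_assoc Λ, ← mul_div_assoc, ← Real.exp_add, mul_div_cancel₀ _ hΛ.ne', ← mul_add]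
          exact Real.one_le_exp (mul_nonneg hD0.le (by linarith [(abs_le.1 (hB x)).1]))))
    have hρ : Dn (-(D * α)) ρ := hw.dn hn hk.le ha han (by positivity) hac hρm
      (fun y => by simp only [hρ', rhs]; positivity) (by positivity) hM
    have hv := hρ.vpart_eq hn ha han (α := α) (Λ := Λ) (u := u)
      fun x => by simp only [hρ']; field_simp
    refine hw.poho (by omega) hk1 hk ha han (by positivity) hac hρ
      (by simp only [hρ']; rw [integral_div, hint, div_self hΛ.ne']) hM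
      (Z := Λ / Real.exp (D * (C' + 2 * lam * ∫ y, Real.log (1 + ‖y‖) * ρ y))) (by positivity)
      fun x => ?_
    change rhs (m + 1) α u x / Λ = _
    rw [rhs, hrep, hv, neg_neg, ← hD, show D * (2 * Λ / lambdaOne (m + 1) *
      ((∫ y, Real.log (1 + ‖y‖) * ρ y) - lp ρ x) + pev p x + C') = D * pev p x +
      -(2 * (D * lam)) * lp ρ x + D * (C' + 2 * lam * ∫ y, Real.log (1 + ‖y‖) * ρ y) by
        rw [hlam]; ring, Real.exp_add, Real.exp_add]
    field_simp
  · intro h
    obtain ⟨ρ, Z, hρ, h1, hZ, hfix⟩ := hw.exists_rho hn hk.le ha (β := D * lam) (by positivity)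
      (by nlinarith) h
    obtain ⟨u, C, -, h2, h3, h4, ⟨C', h5⟩, h6⟩ := hρ.sol hm (α := α) ha han h1 hΛ hZ p
      (hp ▸ (MvPolynomial.totalDegree_rename_le _ _).trans hdeg) fun x => by rw [hfix, neg_neg]
    exact ⟨u, C, C', h2, h3, h4, h5, h6⟩

end Pool.Agent.Lib.MP_d59d86_an
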