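import Pool.Agent.Lib.MP_d59d86_an.Main

/-! Logarithmic potentials of densities with a logarithmic moment. -/

namespace Pool.Agent.Lib.MP_d59d86_an

open MeasureTheory Filter Topology Set SchwartzMap

variable {n : ℕ}

/-- Densities with a logarithmic moment, a power singularity at `0` and power decay. -/
structure Dn (a : ℝ) (ρ : E n → ℝ) : Prop where
  meas : Measurable ρ
  nonneg : ∀ y, 0 ≤ ρ y
  int : Integrable ρ
  intl : Integrable fun y => Real.log (1 + ‖y‖) * ρ y
  bd : ∃ C, 0 ≤ C ∧ ∀ y, ρ y ≤ C * (1 + kb a y)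
  dec : ∃ η C : ℝ, 0 < η ∧ 0 ≤ C ∧ ∀ y, 1 ≤ ‖y‖ → ρ y ≤ C * ‖y‖ ^ (-η)

/-- The logarithmic potential. -/
noncomputable def lp (ρ : E n → ℝ) (x : E n) : ℝ := ∫ y, Real.log ‖x - y‖ * ρ y

variable {a : ℝ} {ρ : E n → ℝ}

theorem log1_nonneg (x : E n) : 0 ≤ Real.log (1 + ‖x‖) :=
  Real.log_nonneg (by linarith [norm_nonneg x])

theorem log1_le (x : E n) : Real.log (1 + ‖x‖) ≤ ‖x‖ := by
  linarith [Real.log_le_sub_one_of_pos (show 0 < 1 + ‖x‖ by positivity)]

theorem neg_log_le {ε : ℝ} (hε : 0 < ε) (z : E n) : -Real.log ‖z‖ ≤ kb ε z / ε := by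
  have h1 := div_nonneg (kb_nonneg ε z) hε.le
  rcases le_or_gt 1 ‖z‖ with h | h
  · linarith [Real.log_nonneg h]
  · rw [kb_of_lt _ h, ← Real.log_inv, Real.rpow_neg (norm_nonneg _),
      ← Real.inv_rpow (norm_nonneg _)]
    exact Real.log_le_rpow_div (by positivity) hε

theorem abs_log_sub {ε : ℝ} (hε : 0 < ε) (x y : E n) :
    |Real.log ‖x - y‖| ≤ kb ε (x - y) / ε + Real.log (1 + ‖x‖) + Real.log (1 + ‖y‖) := by
  have h1 := div_nonneg (kb_nonneg ε (x - y)) hε.le
  rw [abs_le]
  constructor <;> linarith [neg_log_le hε (x - y), log_sub_le x y, log1_nonneg x, log1_nonneg y]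

theorem ae_ne (hn : 1 ≤ n) (z : E n) : ∀ᵐ x : E n, x ≠ z := by
  have : Nontrivial (E n) :=
    Module.nontrivial_of_finrank_pos (R := ℝ) (by rw [finrank_euclideanSpace_fin]; omega)
  simp [ae_iff]

theorem Dn.kb_bound (h : Dn a ρ) (hn : 1 ≤ n) (ha : 0 ≤ a) {b : ℝ} (hb : 0 ≤ b) (hab : a + b < n) :
    ∃ A, ∀ x, Integrable (fun y => kb b (x - y) * ρ y) ∧ ∫ y, kb b (x - y) * ρ y ≤ A := by
  obtain ⟨C, hC0, hC⟩ := h.bd
  have i1 : Integrable (kb b : E n → ℝ) := kb_int hn (by linarith)
  have i2 : Integrable (kb (a + b) : E n → ℝ) := kb_int hn hab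
  refine ⟨C * ((∫ y : E n, kb b y) + ((∫ y : E n, kb (a + b) y) + ∫ y : E n, kb (a + b) y)),
    fun x => ?_⟩
  have i3 : Integrable (fun y => kb (a + b) y + kb (a + b) (x - y)) := i2.add (i2.comp_sub_left x)
  have i4 : Integrable (fun y => kb b (x - y) + (kb (a + b) y + kb (a + b) (x - y))) :=
    (i1.comp_sub_left x).add i3
  have hle : ∀ᵐ y : E n, kb b (x - y) * ρ y ≤
      C * (kb b (x - y) + (kb (a + b) y + kb (a + b) (x - y))) := by
    filter_upwards [ae_ne hn 0, ae_ne hn x] with y hy hyx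
    have h1 := kb_mul_le ha hb hy (sub_ne_zero.2 hyx.symm)
    have h3 := mul_le_mul_of_nonneg_right (hC y) (kb_nonneg b (x - y))
    have h4 := mul_le_mul_of_nonneg_left h1 hC0
    nlinarith
  have i6 : Integrable (fun y => kb b (x - y) * ρ y) := by
    refine (i4.const_mul C).mono' (Measurable.aestronglyMeasurable
      (((kb_meas b).comp (by fun_prop)).mul h.meas)) ?_
    filter_upwards [hle] with y hy
    rwa [Real.norm_of_nonneg (mul_nonneg (kb_nonneg _ _) (h.nonneg y))]
  refine ⟨i6, (integral_mono_ae i6 (i4.const_mul C) hle).trans (le_of_eq ?_)⟩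
  rw [integral_const_mul, integral_add (i1.comp_sub_left x) i3,
    integral_add i2 (i2.comp_sub_left x), integral_sub_left_eq_self (kb b) volume x,
    integral_sub_left_eq_self (kb (a + b)) volume x]

theorem Dn.log_bound (h : Dn a ρ) (hn : 1 ≤ n) (ha : 0 ≤ a) (han : a < n) :
    ∃ B, ∀ x, Integrable (fun y => Real.log ‖x - y‖ * ρ y) ∧
      ∫ y, ‖Real.log ‖x - y‖ * ρ y‖ ≤ B + (∫ y, ρ y) * Real.log (1 + ‖x‖) := by
  have hε : 0 < (n - a) / 2 := by linarith
  obtain ⟨A, hA⟩ := h.kb_bound hn ha hε.le (by linarith)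
  refine ⟨A / ((n - a) / 2) + ∫ y, Real.log (1 + ‖y‖) * ρ y, fun x => ?_⟩
  have i1 := ((hA x).1.div_const ((n - a) / 2)).add (h.int.const_mul (Real.log (1 + ‖x‖)))
  have i2 := i1.add h.intl
  have hle : ∀ y, ‖Real.log ‖x - y‖ * ρ y‖ ≤ kb ((n - a) / 2) (x - y) * ρ y / ((n - a) / 2) +
      Real.log (1 + ‖x‖) * ρ y + Real.log (1 + ‖y‖) * ρ y := fun y => by
    rw [norm_mul, Real.norm_of_nonneg (h.nonneg y), Real.norm_eq_abs]
    exact (mul_le_mul_of_nonneg_right (abs_log_sub hε x y) (h.nonneg y)).trans (le_of_eq (by ring))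
  have i3 : Integrable (fun y => Real.log ‖x - y‖ * ρ y) :=
    i2.mono' (Measurable.aestronglyMeasurable (Measurable.mul (by fun_prop) h.meas))
      (Eventually.of_forall hle)
  refine ⟨i3, (integral_mono i3.norm i2 hle).trans ?_⟩
  have e := integral_add i1 h.intl
  have e' := integral_add ((hA x).1.div_const ((n - a) / 2)) (h.int.const_mul (Real.log (1 + ‖x‖)))
  simp only [Pi.add_apply] at e e' ⊢
  rw [e, e', integral_div, integral_const_mul]
  linarith [div_le_div_of_nonneg_right (hA x).2 hε.le]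

theorem Dn.lp_cont (h : Dn a ρ) (hn : 1 ≤ n) (ha : 0 ≤ a) (han : a < n) : Continuous (lp ρ) := by
  set ε := (n - a) / 4 with hε'
  have hε : 0 < ε := by linarith
  obtain ⟨A, hA⟩ := h.kb_bound hn ha (b := 2 * ε) (by linarith) (by linarith)
  obtain ⟨B, hB⟩ := h.log_bound hn ha han
  let t : ℕ → ℝ := fun j => 1 / ((j : ℝ) + 1)
  have ht : ∀ j, 0 < t j := fun j => Nat.one_div_pos_of_nat
  have ht1 : ∀ j, t j ≤ 1 := fun j => by
    simp only [t]; rw [div_le_one (by positivity)]; linarith [(Nat.cast_nonneg j : (0 : ℝ) ≤ j)]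
  have hb : ∀ j (x y : E n), ‖Real.log (max ‖x - y‖ (t j)) * ρ y‖ ≤
      (-Real.log (t j) + Real.log (1 + ‖x‖)) * ρ y + Real.log (1 + ‖y‖) * ρ y := fun j x y => by
    rw [norm_mul, Real.norm_of_nonneg (h.nonneg y), Real.norm_eq_abs, ← add_mul]
    refine mul_le_mul_of_nonneg_right ?_ (h.nonneg y)
    have h1 := Real.log_nonpos (ht j).le (ht1 j)
    have h2 := Real.log_le_log (ht j) (le_max_right ‖x - y‖ (t j))
    have h3 := log_sub_le x y
    rw [abs_le]
    constructor
    · linarith [log1_nonneg x, log1_nonneg y]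
    · rcases le_total ‖x - y‖ (t j) with h4 | h4
      · rw [max_eq_right h4]; linarith [log1_nonneg x, log1_nonneg y]
      · rw [max_eq_left h4]; linarith
  have hm : ∀ j (x : E n), AEStronglyMeasurable (fun y => Real.log (max ‖x - y‖ (t j)) * ρ y) :=
    fun j x => Measurable.aestronglyMeasurable (Measurable.mul (by fun_prop) h.meas)
  have hc : ∀ j, Continuous fun x => ∫ y, Real.log (max ‖x - y‖ (t j)) * ρ y := fun j => by
    refine continuous_iff_continuousAt.2 fun x0 => continuousAt_of_dominated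
      (bound := fun y => (-Real.log (t j) + (‖x0‖ + 1)) * ρ y + Real.log (1 + ‖y‖) * ρ y)
      (Eventually.of_forall (hm j)) ?_ ((h.int.const_mul _).add h.intl)
      (Eventually.of_forall fun y => Continuous.continuousAt ?_)
    · filter_upwards [(continuous_norm.tendsto x0).eventually_le_const (lt_add_one ‖x0‖)] with x hx
      refine Eventually.of_forall fun y => (hb j x y).trans ?_
      have := h.nonneg y
      have := log1_le x
      gcongr
      linarith
    · exact (Continuous.log (by fun_prop) fun x =>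
        ((ht j).trans_le (le_max_right _ _)).ne').mul continuous_const
  refine TendstoUniformly.continuous (p := atTop) ?_ (Frequently.of_forall hc)
  have hlim : Tendsto (fun j => t j ^ ε * (A / ε)) atTop (𝓝 0) := by
    have := (tendsto_one_div_add_atTop_nhds_zero_nat (𝕜 := ℝ)).rpow_const (p := ε) (Or.inr hε.le)
    rw [Real.zero_rpow hε.ne'] at this
    simpa [t] using this.mul_const (A / ε)
  refine Metric.tendstoUniformly_iff.2 fun η hη => ?_
  filter_upwards [hlim.eventually_lt_const hη] with j hj x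
  have i1 : Integrable fun y => Real.log (max ‖x - y‖ (t j)) * ρ y :=
    ((h.int.const_mul _).add h.intl).mono' (hm j x) (Eventually.of_forall (hb j x))
  rw [dist_eq_norm, lp, ← integral_sub (hB x).1 i1]
  refine lt_of_le_of_lt (norm_integral_le_of_norm_le
    (((hA x).1.div_const ε).const_mul (t j ^ ε)) ?_ |>.trans ?_) hj
  · filter_upwards [ae_ne hn x] with y hy
    have hr : 0 < ‖x - y‖ := norm_pos_iff.2 (sub_ne_zero.2 hy.symm)
    have h0 := h.nonneg y
    have h1 := kb_nonneg (2 * ε) (x - y)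
    have h2 := Real.rpow_pos_of_pos (ht j) ε
    rcases le_or_gt (t j) ‖x - y‖ with h4 | h4
    · rw [max_eq_left h4, sub_self, norm_zero]; positivity
    · have h5 := neg_log_le hε (x - y)
      have h6 := Real.log_nonpos (ht j).le (ht1 j)
      have h7 := Real.log_le_log hr h4.le
      have h8 : kb ε (x - y) ≤ t j ^ ε * kb (2 * ε) (x - y) := by
        rw [kb_of_lt _ (h4.trans_le (ht1 j)), kb_of_lt _ (h4.trans_le (ht1 j)),
          show -ε = ε + -(2 * ε) by ring, Real.rpow_add hr]
        gcongr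
      rw [max_eq_right h4.le, ← sub_mul, norm_mul, Real.norm_of_nonneg h0, Real.norm_eq_abs,
        abs_of_nonpos (by linarith)]
      calc _ ≤ t j ^ ε * kb (2 * ε) (x - y) / ε * ρ y := by
            gcongr; linarith [div_le_div_of_nonneg_right h8 hε.le]
        _ = _ := by ring
  · rw [integral_const_mul, integral_div]
    have := (hA x).2
    have h2 := Real.rpow_pos_of_pos (ht j) ε
    gcongr

theorem Dn.asymp (h : Dn a ρ) (hn : 2 ≤ n) (ha : 0 ≤ a) (han : a < n) (h1 : ∫ y, ρ y = 1) :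
    Tendsto (fun x => lp ρ x - Real.log ‖x‖) (cocompact (E n)) (𝓝 0) := by
  obtain ⟨η, C, hη, hC0, hC⟩ := h.dec
  obtain ⟨B, hB⟩ := h.log_bound (by omega) ha han
  have i1 : Integrable (kb 1 : E n → ℝ) := kb_int (by omega) (by exact_mod_cast hn)
  have hnorm : Tendsto (fun x : E n => ‖x‖) (cocompact (E n)) atTop :=
    tendsto_norm_cocompact_atTop (E := E n)
  have : (cocompact (E n)).IsCountablyGenerated := by
    rw [← Metric.cobounded_eq_cocompact, ← comap_norm_atTop]; infer_instance
  let F : E n → E n → ℝ := fun x y => (Real.log (max ‖x - y‖ 1) - Real.log ‖x‖) * ρ y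
  have hF : ∀ x, 1 ≤ ‖x‖ → ∀ y, ‖F x y‖ ≤ ρ y + Real.log (1 + ‖y‖) * ρ y := fun x hx y => by
    have hy := norm_nonneg y
    have h2 : ‖x‖ ≤ ‖x - y‖ + ‖y‖ := by simpa using norm_add_le (x - y) y
    have h3 := norm_sub_le x y
    have h4 := le_max_left ‖x - y‖ 1
    have h5 := le_max_right ‖x - y‖ 1
    have h6 : Real.log ‖x‖ ≤ Real.log (max ‖x - y‖ 1) + Real.log (1 + ‖y‖) := by
      rw [← Real.log_mul (by positivity) (by positivity)]
      exact Real.log_le_log (by linarith) (by nlinarith)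
    have h7 : Real.log (max ‖x - y‖ 1) ≤ Real.log ‖x‖ + Real.log (1 + ‖y‖) := by
      rw [← Real.log_mul (by positivity) (by positivity)]
      exact Real.log_le_log (by linarith) (max_le (by nlinarith) (by nlinarith))
    rw [norm_mul, Real.norm_of_nonneg (h.nonneg y), Real.norm_eq_abs, ← one_add_mul]
    exact mul_le_mul_of_nonneg_right (abs_le.2 ⟨by linarith, by linarith⟩) (h.nonneg y)
  have hm : ∀ x, AEStronglyMeasurable (F x) :=
    fun x => Measurable.aestronglyMeasurable (Measurable.mul (by fun_prop) h.meas)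
  have t1 : Tendsto (fun x => ∫ y, F x y) (cocompact (E n)) (𝓝 (∫ _ : E n, (0 : ℝ))) := by
    refine tendsto_integral_filter_of_dominated_convergence _ (Eventually.of_forall hm)
      ((hnorm.eventually_ge_atTop 1).mono fun x hx => Eventually.of_forall (hF x hx))
      (h.int.add h.intl) (Eventually.of_forall fun y => ?_)
    have hlim := (hnorm.const_div_atTop ((1 + ‖y‖) ^ 2)).mul_const (ρ y)
    rw [zero_mul] at hlim
    refine squeeze_zero_norm' ?_ hlim
    filter_upwards [hnorm.eventually_ge_atTop (1 + ‖y‖)] with x hx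
    have h2 : ‖x‖ ≤ ‖x - y‖ + ‖y‖ := by simpa using norm_add_le (x - y) y
    have h3 := log_diff_le (x := x) (by linarith [norm_nonneg y]) y
    have h4 : kb 1 (x - y) = 0 := indicator_of_notMem (by simp; linarith) _
    rw [norm_mul, Real.norm_of_nonneg (h.nonneg y), max_eq_left (by linarith), Real.norm_eq_abs]
    exact mul_le_mul_of_nonneg_right (by linarith) (h.nonneg y)
  have t2 : Tendsto (fun x : E n => C * (‖x‖ - 1) ^ (-η) * ∫ y : E n, kb 1 y) (cocompact (E n))
      (𝓝 0) := by
    have := ((tendsto_rpow_neg_atTop hη).comp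
      (tendsto_atTop_add_const_right _ (-1) hnorm)).const_mul C |>.mul_const (∫ y : E n, kb 1 y)
    simpa [sub_eq_add_neg] using this
  rw [integral_zero] at t1
  have t3 : Tendsto (fun x => lp ρ x - Real.log ‖x‖ - ∫ y, F x y) (cocompact (E n)) (𝓝 0) := by
    refine squeeze_zero_norm' ?_ t2
    filter_upwards [hnorm.eventually_ge_atTop 2] with x hx
    have i2 : Integrable (F x) :=
      (h.int.add h.intl).mono' (hm x) (Eventually.of_forall (hF x (by linarith)))
    have i3 : Integrable fun y => Real.log ‖x - y‖ * ρ y - Real.log ‖x‖ * ρ y :=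
      (hB x).1.sub (h.int.const_mul (Real.log ‖x‖))
    have e1 := integral_sub (hB x).1 (h.int.const_mul (Real.log ‖x‖))
    rw [integral_const_mul, h1, mul_one] at e1
    rw [lp, ← e1, ← integral_sub i3 i2, ← integral_sub_left_eq_self (kb 1) volume x,
      ← integral_const_mul]
    refine norm_integral_le_of_norm_le ((i1.comp_sub_left x).const_mul _)
      (Eventually.of_forall fun y => ?_)
    have h2 : ‖x‖ ≤ ‖x - y‖ + ‖y‖ := by simpa using norm_add_le (x - y) y
    have h3 := kb_nonneg 1 (x - y)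
    have h4 := Real.rpow_pos_of_pos (show 0 < ‖x‖ - 1 by linarith) (-η)
    simp only [F]
    rcases le_or_gt 1 ‖x - y‖ with h5 | h5
    · rw [max_eq_left h5, ← sub_mul, sub_self, norm_zero]; positivity
    · have h6 := neg_log_le one_pos (x - y)
      have h7 := Real.log_nonpos (norm_nonneg _) h5.le
      have h8 : ‖y‖ ^ (-η) ≤ (‖x‖ - 1) ^ (-η) :=
        Real.rpow_le_rpow_of_nonpos (by linarith) (by linarith) (by linarith)
      have h9 := (hC y (by linarith)).trans (mul_le_mul_of_nonneg_left h8 hC0)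
      rw [max_eq_right h5.le, Real.log_one, ← sub_mul, ← sub_mul, norm_mul,
        Real.norm_of_nonneg (h.nonneg y), Real.norm_eq_abs, abs_of_nonpos (by linarith), mul_comm]
      exact mul_le_mul h9 (by linarith) (by linarith) (by positivity)
  simpa using t3.add t1

theorem Dn.pair {k : ℕ} (hk : 1 ≤ k) {ρ : E (k + 1) → ℝ} (h : Dn a ρ) (φ : 𝓢(E (k + 1), ℂ)) :
    ∫ x, (lp ρ x : ℂ) * fracLap φ x = -(gam (k + 1) : ℂ) * ∫ y, (ρ y : ℂ) * φ y := by
  obtain ⟨B, hB⟩ := fracLap_bdd φ
  have i1 : Integrable (kb 1 : E (k + 1) → ℝ) := kb_int (by omega) (by exact_mod_cast by omega)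
  have i3 := (fracLap_weight φ).mul_prod (h.int.add h.intl)
  have i4 := (h.int.convolution_integrand (ContinuousLinearMap.mul ℝ ℝ) i1).const_mul B
  have hi : Integrable (Function.uncurry fun x y : E (k + 1) =>
      ((Real.log ‖x - y‖ * ρ y : ℝ) : ℂ) * fracLap φ x) (volume.prod volume) := by
    refine (i3.add i4).mono' (Measurable.aestronglyMeasurable ?_)
      (Eventually.of_forall fun p => ?_)
    · have := (fracLap_cont φ).measurable
      have := h.meas
      unfold Function.uncurry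
      fun_prop
    · have h1 := abs_log_sub one_pos p.1 p.2
      have h2 : 1 + ‖p.1‖ ≤ (1 + ‖p.1‖) ^ k :=
        le_self_pow₀ (by linarith [norm_nonneg p.1]) (by omega)
      have h3 := log1_nonneg p.2
      have h4 : |Real.log ‖p.1 - p.2‖| ≤
          kb 1 (p.1 - p.2) + (1 + ‖p.1‖) ^ k * (1 + Real.log (1 + ‖p.2‖)) := by
        nlinarith [log1_le p.1, norm_nonneg p.1]
      have h5 := mul_le_mul_of_nonneg_right h4 (mul_nonneg (h.nonneg p.2)
        (norm_nonneg (fracLap φ p.1)))
      have h6 := mul_le_mul_of_nonneg_right (hB p.1)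
        (mul_nonneg (h.nonneg p.2) (kb_nonneg 1 (p.1 - p.2)))
      simp only [Function.uncurry, norm_mul, Complex.norm_real, Real.norm_eq_abs, Pi.add_apply,
        abs_of_nonneg (h.nonneg p.2), ContinuousLinearMap.mul_apply']
      linarith
  have e1 : ∀ x, (lp ρ x : ℂ) * fracLap φ x =
      ∫ y, ((Real.log ‖x - y‖ * ρ y : ℝ) : ℂ) * fracLap φ x := fun x => by
    rw [integral_mul_const, integral_complex_ofReal, lp]
  simp_rw [e1]
  rw [integral_integral_swap hi, ← integral_const_mul]
  refine integral_congr_ae (Eventually.of_forall fun y => ?_)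
  have e2 : ∫ x, ((Real.log ‖x - y‖ * ρ y : ℝ) : ℂ) * fracLap φ x =
      (ρ y : ℂ) * ∫ x, (Real.log ‖x - y‖ : ℂ) * fracLap φ x := by
    rw [← integral_const_mul]
    refine integral_congr_ae (Eventually.of_forall fun x => ?_)
    simp only [Complex.ofReal_mul]; ring
  simp only
  rw [e2, log_identity hk φ y]
  ring

end Pool.Agent.Lib.MP_d59d86_an
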