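import Pool.Agent.Lib.MP_d59d86_an.Dg.Pot
import Pool.Agent.Lib.MP_d59d86_an.Dg.Defs

/-! From a fixed point of the mean field equation to a solution. -/

namespace Pool.Agent.Lib.MP_d59d86_an

open MeasureTheory Filter Topology Set SchwartzMap

theorem Dn.vpart_eq {n : ℕ} {a α Λ : ℝ} {ρ u : E n → ℝ} (h : Dn a ρ) (hn : 1 ≤ n) (ha : 0 ≤ a)
    (han : a < n) (hu : ∀ x, rhs n α u x = Λ * ρ x) (x : E n) : vpart n α u x =
      2 * Λ / lambdaOne n * ((∫ y, Real.log (1 + ‖y‖) * ρ y) - lp ρ x) := by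
  obtain ⟨B, hB⟩ := h.log_bound hn ha han
  have e : ∫ y, Real.log ((1 + ‖y‖) / ‖x - y‖) * rhs n α u y =
      ∫ y, Λ * (Real.log (1 + ‖y‖) * ρ y - Real.log ‖x - y‖ * ρ y) := by
    refine integral_congr_ae ?_
    filter_upwards [ae_ne hn x] with y hy
    rw [hu, Real.log_div (by positivity) (norm_ne_zero_iff.2 (sub_ne_zero.2 hy.symm))]
    ring
  rw [vpart, e, integral_const_mul, integral_sub h.intl (hB x).1, lp]
  ring

theorem Dn.sol {k : ℕ} (hk : 1 ≤ k) {a α Λ Z : ℝ} {ρ : E (k + 1) → ℝ} (hρ : Dn a ρ) (ha0 : 0 ≤ a)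
    (ha : a < (k + 1 : ℕ)) (h1 : ∫ y, ρ y = 1) (hΛ : 0 < Λ) (hZ : 0 < Z)
    (p : MvPolynomial (Fin (k + 1)) ℝ) (hdeg : p.totalDegree ≤ k)
    (hfix : ∀ x, ρ x = Real.exp ((k + 1 : ℕ) * pev p x) * ‖x‖ ^ ((k + 1 : ℕ) * α) *
      Real.exp (-(2 * ((k + 1 : ℕ) * (Λ / lambdaOne (k + 1)))) * lp ρ x) / Z) :
    ∃ (u : E (k + 1) → ℝ) (C : ℝ),
      (∀ x, u x = pev p x + C - 2 * (Λ / lambdaOne (k + 1)) * lp ρ x) ∧ Continuous u ∧
      IsWeakSol (k + 1) α u ∧ ∫ x, rhs (k + 1) α u x = Λ ∧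
      (∃ C', ∀ x, u x = vpart (k + 1) α u x + pev p x + C') ∧
      Tendsto (fun x => u x - pev p x + 2 * Λ / lambdaOne (k + 1) * Real.log ‖x‖)
        (cocompact (E (k + 1))) (𝓝 C) := by
  have hL : 0 < lambdaOne (k + 1) := by rw [lambdaOne_eq]; linarith [gam_pos k]
  set N : ℝ := ((k + 1 : ℕ) : ℝ) with hN
  have hN0 : 0 < N := by positivity
  set lam := Λ / lambdaOne (k + 1) with hlam
  have hlam0 : 0 < lam := div_pos hΛ hL
  obtain ⟨B, hB⟩ := hρ.log_bound (by omega) ha0 ha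
  have hUc := hρ.lp_cont (by omega) ha0 ha
  set U := lp ρ with hU
  set c := Real.log (Λ / Z) / N with hc
  have hrhs : ∀ x, rhs (k + 1) α (fun x => pev p x + c - 2 * lam * U x) x = Λ * ρ x := fun x => by
    rw [rhs, hfix, ← hN]
    have e : N * (pev p x + c - 2 * lam * U x) =
        N * pev p x + Real.log (Λ / Z) + -(2 * (N * lam)) * U x := by
      rw [hc]; field_simp; ring
    rw [e, Real.exp_add, Real.exp_add, Real.exp_log (div_pos hΛ hZ)]
    ring
  obtain ⟨C1, hC1, hP⟩ := pev_growth p k hdeg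
  have hone : ∀ x : E (k + 1), 1 + ‖x‖ ≤ (1 + ‖x‖) ^ k := fun x =>
    le_self_pow₀ (by linarith [norm_nonneg x]) (by omega)
  have hUb : ∀ x, |U x| ≤ (|B| + 1) * (1 + ‖x‖) ^ k := fun x => by
    have h2 := mul_le_mul_of_nonneg_left (hone x) (show 0 ≤ |B| + 1 by positivity)
    have h3 : |U x| ≤ _ := (norm_integral_le_integral_norm _).trans (hB x).2
    rw [h1, one_mul] at h3
    nlinarith [log1_le x, le_abs_self B, norm_nonneg x, abs_nonneg B]
  have hcb : ∀ x : E (k + 1), |c| ≤ |c| * (1 + ‖x‖) ^ k := fun x =>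
    le_mul_of_one_le_right (abs_nonneg c) (one_le_pow₀ (by linarith [norm_nonneg x]))
  have hcont : Continuous fun x => pev p x + c - 2 * lam * U x := by
    have := pev_continuous p
    fun_prop
  refine ⟨fun x => pev p x + c - 2 * lam * U x, c, fun _ => rfl, hcont, ?_, ?_,
    ⟨c - 2 * lam * ∫ y, Real.log (1 + ‖y‖) * ρ y, fun x => ?_⟩, ?_⟩
  · refine isWeakSol_of hk (C := C1 + |c| + 2 * lam * (|B| + 1)) hcont.measurable (fun x => ?_) ?_
      fun φ => ?_
    · have h2 := mul_le_mul_of_nonneg_left (hUb x) (show 0 ≤ 2 * lam by positivity)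
      have h3 : |2 * lam * U x| = 2 * lam * |U x| := by
        rw [abs_mul, abs_of_pos (by positivity)]
      have h4 := abs_sub (pev p x + c) (2 * lam * U x)
      have h5 := abs_add_le (pev p x) c
      nlinarith [hP x, hcb x]
    · rw [funext hrhs]; exact hρ.int.const_mul Λ
    · have j1 := int_mul_fracLap φ (pev_continuous p).aestronglyMeasurable hP
      have j2 := int_mul_fracLap φ (q := fun _ => c) aestronglyMeasurable_const hcb
      have j3 := int_mul_fracLap φ hUc.aestronglyMeasurable hUb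
      have j4 : Integrable (fun x => (pev p x : ℂ) * fracLap φ x + (c : ℂ) * fracLap φ x) :=
        j1.add j2
      have e1 : ∫ x, ((pev p x + c - 2 * lam * U x : ℝ) : ℂ) * fracLap φ x =
          ∫ x, ((pev p x : ℂ) * fracLap φ x + (c : ℂ) * fracLap φ x
            - (2 * lam : ℂ) * ((U x : ℂ) * fracLap φ x)) :=
        integral_congr_ae (Eventually.of_forall fun x => by push_cast; ring)
      have e2 : ∫ x, (c : ℂ) * fracLap φ x = 0 := by
        simpa [pev] using moment_poly φ (MvPolynomial.C c) (by simp)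
      have e3 : ∫ x, ((Λ * ρ x : ℝ) : ℂ) * φ x = (Λ : ℂ) * ∫ y, (ρ y : ℂ) * φ y := by
        rw [← integral_const_mul]
        exact integral_congr_ae (Eventually.of_forall fun x => by push_cast; ring)
      have e4 : (Λ : ℂ) = 2 * lam * gam (k + 1) := by
        have : Λ = 2 * lam * gam (k + 1) := by
          rw [hlam, lambdaOne_eq]; field_simp [(gam_pos k).ne']
        exact_mod_cast this
      simp only [hrhs]
      rw [e1, integral_sub j4 (j3.const_mul _), integral_add j1 j2, moment_poly φ p hdeg, e2,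
        integral_const_mul, hρ.pair hk φ, e3, e4]
      ring
  · rw [funext hrhs, integral_const_mul, h1, mul_one]
  · rw [hρ.vpart_eq (by omega) ha0 ha hrhs x, hlam]
    ring
  · have h2 := ((hρ.asymp (by omega) ha0 ha h1).const_mul (2 * lam)).const_sub c
    rw [mul_zero, sub_zero] at h2
    refine h2.congr fun x => ?_
    rw [hlam]; ring

end Pool.Agent.Lib.MP_d59d86_an
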